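import Pool.Agent.Q139.EG.Key
import Pool.Agent.Q139.EG.Aff
import Pool.Agent.Q139.EB.Aff

/-!
Curves given by iterated linear differential equations with coefficients in an arbitrary
differential ring of analytic functions.
-/

set_option autoImplicit false

namespace Pool.Agent.Q139.EG

open Filter Set MvPolynomial Pool.Agent.TH143 Pool.Agent.Y377.EL Pool.Agent.Y377.IL
  Pool.Agent.Y377.ST Pool.Agent.Q1.SL

/-- `M` is a ring of functions which are analytic on `Ω`; it contains the constants and is closed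
under differentiation (on `Ω`). -/
structure CRing (Ω : Set ℂ) (M : Set (ℂ → ℂ)) : Prop where
  an : ∀ g ∈ M, AnalyticOnNhd ℂ g Ω
  const : ∀ c : ℂ, (fun _ => c) ∈ M
  add : ∀ g ∈ M, ∀ h ∈ M, (fun z => g z + h z) ∈ M
  mul : ∀ g ∈ M, ∀ h ∈ M, (fun z => g z * h z) ∈ M
  der : ∀ g ∈ M, ∃ h ∈ M, ∀ z ∈ Ω, deriv g z = h z

/-- `X_1(z), ..., X_s(z)` are matrices of size `r` of functions which are analytic on `Ω`, invertible
with inverses `Y_l(z)`, such that the entries of `X_l'(z) X_l(z)⁻¹` are, for all `z` in `Ω`, the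
values of polynomials with coefficients in `M`, of degree at most `e` in each variable, at the
entries of `X_i(z)` and `X_i(z)⁻¹`, `i < l`. -/
structure MIter (Ω : Set ℂ) (M : Set (ℂ → ℂ)) {s r : ℕ} (e : ℕ)
    (X Y : Fin s → ℂ → Matrix (Fin r) (Fin r) ℂ) : Prop where
  an : ∀ l i j, AnalyticOnNhd ℂ (fun z => X l z i j) Ω
  an' : ∀ l i j, AnalyticOnNhd ℂ (fun z => Y l z i j) Ω
  inv : ∀ l, ∀ z ∈ Ω, X l z * Y l z = 1
  coc : ∀ (l : Fin s) (i j : Fin r), ∃ c : (Ix s r → Fin (e + 1)) → ℂ → ℂ, (∀ m, c m ∈ M) ∧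
    ∀ z ∈ Ω, ∑ k, deriv (fun w => X l w i k) z * Y l z k j =
      pev (fun m => c m z) (before l (entries X Y z))

/-- The coordinates of `f(z)` are, on `Ω`, the values of polynomials with coefficients in `M`, of
degree at most `e` in each variable, at the entries of `X_1(z), X_1(z)⁻¹, ..., X_s(z), X_s(z)⁻¹`, for
matrices `X_l` of size `r` as in `MIter`: they are given by `s` iterated linear differential
equations with coefficients in `M`. -/
def MVec (Ω : Set ℂ) (M : Set (ℂ → ℂ)) {n : ℕ} (s r e : ℕ) (f : ℂ → Fin n → ℂ) : Prop :=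
  ∃ X Y : Fin s → ℂ → Matrix (Fin r) (Fin r) ℂ, MIter Ω M e X Y ∧
    ∀ j, ∃ c : (Ix s r → Fin (e + 1)) → ℂ → ℂ, (∀ m, c m ∈ M) ∧ ∀ z ∈ Ω,
      f z j = pev (fun m => c m z) (entries X Y z)

/-- `g / h` is algebraic of degree at most `d` over the functions in `M`: there are functions
`A 0, ..., A d` in `M`, not all of them zero on `Ω`, with
`∑ k, A k (z) g(z) ^ k h(z) ^ (d - k) = 0` for all `z` in `Ω`. -/
def AlgM (Ω : Set ℂ) (M : Set (ℂ → ℂ)) (d : ℕ) (g h : ℂ → ℂ) : Prop :=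
  ∃ A : ℕ → ℂ → ℂ, (∀ k, A k ∈ M) ∧ (∃ k ≤ d, ∃ z ∈ Ω, A k z ≠ 0) ∧
    ∀ z ∈ Ω, ∑ k ∈ Finset.range (d + 1), A k z * g z ^ k * h z ^ (d - k) = 0

section curve

variable {Ω : Set ℂ} {M : Set (ℂ → ℂ)} {s r e n : ℕ}

theorem MIter.ent {X Y : Fin s → ℂ → Matrix (Fin r) (Fin r) ℂ} (hX : MIter Ω M e X Y)
    (v : Ix s r) : AnalyticOnNhd ℂ (fun z => entries X Y z v) Ω := by
  unfold entries
  by_cases hb : v.2.1 = true
  · simp only [if_pos hb]
    exact hX.an _ _ _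
  · simp only [if_neg hb]
    exact hX.an' _ _ _

theorem MIter.bef {X Y : Fin s → ℂ → Matrix (Fin r) (Fin r) ℂ} (hX : MIter Ω M e X Y)
    (l : Fin s) (v : Ix s r) : AnalyticOnNhd ℂ (fun z => before l (entries X Y z) v) Ω := by
  unfold before
  by_cases hb : v.1 < l
  · simp only [if_pos hb]
    exact hX.ent v
  · simp only [if_neg hb]
    exact analyticOnNhd_const

theorem pevM_an {ι : Type} [Fintype ι] [DecidableEq ι] {c : (ι → Fin (e + 1)) → ℂ → ℂ}
    (hc : ∀ m, AnalyticOnNhd ℂ (c m) Ω) {w : ℂ → ι → ℂ}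
    (hw : ∀ i, AnalyticOnNhd ℂ (fun z => w z i) Ω) :
    AnalyticOnNhd ℂ (fun z => pev (fun m => c m z) (w z)) Ω := by
  unfold pev
  intro z hz
  refine Finset.analyticAt_fun_sum _ fun m _ => ?_
  exact (hc m z hz).mul (Finset.analyticAt_fun_prod _ fun i _ => (hw i z hz).pow _)

theorem MVec.an {f : ℂ → Fin n → ℂ} (hΩ : IsOpen Ω) (hM : CRing Ω M) (hf : MVec Ω M s r e f)
    (j : Fin n) : AnalyticOnNhd ℂ (fun z => f z j) Ω := by
  obtain ⟨X, Y, hX, hc⟩ := hf
  obtain ⟨c, hcM, hc⟩ := hc j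
  exact (pevM_an (fun m => hM.an _ (hcM m)) hX.ent).congr hΩ fun z hz => (hc z hz).symm

variable {K : Type} [Field K] [Algebra ℂ K] {D : Derivation ℂ K K} {A : Subalgebra ℂ K}
  {i : Hol Ω →ₐ[ℂ] K}

/-- the ring of the coefficients -/
def cAlg (i : Hol Ω →ₐ[ℂ] K) (hM : CRing Ω M) : Subalgebra ℂ K where
  carrier := {x | ∃ (g : ℂ → ℂ) (hg : g ∈ M), x = i (toHol g (hM.an g hg))}
  mul_mem' := by
    rintro _ _ ⟨g, hg, rfl⟩ ⟨h, hh, rfl⟩
    refine ⟨fun z => g z * h z, hM.mul g hg h hh, ?_⟩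
    rw [← map_mul]
    rfl
  add_mem' := by
    rintro _ _ ⟨g, hg, rfl⟩ ⟨h, hh, rfl⟩
    refine ⟨fun z => g z + h z, hM.add g hg h hh, ?_⟩
    rw [← map_add]
    rfl
  algebraMap_mem' := by
    intro c
    refine ⟨fun _ => c, hM.const c, ?_⟩
    rw [← i.commutes c]
    rfl

theorem cAlg_mem (i : Hol Ω →ₐ[ℂ] K) (hM : CRing Ω M) {g : ℂ → ℂ} (hg : g ∈ M) :
    i (toHol g (hM.an g hg)) ∈ cAlg i hM := ⟨g, hg, rfl⟩

theorem cAlg_stab (hA : Amb Ω K D A i) (hM : CRing Ω M) : Stab D (cAlg i hM) := by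
  rintro _ ⟨g, hg, rfl⟩
  obtain ⟨h, hh, hgh⟩ := hM.der g hg
  refine ⟨h, hh, ?_⟩
  rw [der_hol hA]
  congr 1
  apply hol_ext
  intro z
  rw [evz_toHol, evz_toHol]
  exact hgh z z.2

theorem i_pevM (i : Hol Ω →ₐ[ℂ] K) {ι : Type} [Fintype ι] [DecidableEq ι]
    {c : (ι → Fin (e + 1)) → ℂ → ℂ} (hc : ∀ m, AnalyticOnNhd ℂ (c m) Ω) {w : ℂ → ι → ℂ}
    (hw : ∀ i, AnalyticOnNhd ℂ (fun z => w z i) Ω) {F : ℂ → ℂ} (hF : AnalyticOnNhd ℂ F Ω)
    (h : ∀ z ∈ Ω, F z = pev (fun m => c m z) (w z)) :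
    i (toHol F hF) = pev (fun m => i (toHol _ (hc m))) (fun v => i (toHol _ (hw v))) := by
  have h1 : toHol F hF = pev (fun m => toHol _ (hc m)) (fun v => toHol _ (hw v)) := by
    apply hol_ext
    intro z
    rw [evz_toHol, h z z.2]
    have h2 := map_pev (evz z : Hol Ω →+* ℂ) (fun m => toHol _ (hc m)) (fun v => toHol _ (hw v))
    refine Eq.trans ?_ h2.symm
    congr 1
  rw [h1]
  exact map_pev (i : Hol Ω →+* K) (fun m => toHol _ (hc m)) (fun v => toHol _ (hw v))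

theorem entM_hol (i : Hol Ω →ₐ[ℂ] K) {X Y : Fin s → ℂ → Matrix (Fin r) (Fin r) ℂ}
    (hX : MIter Ω M e X Y) (v : Ix s r) :
    entD (fun l => Matrix.of fun a b => i (toHol _ (hX.an l a b)))
      (fun l => Matrix.of fun a b => i (toHol _ (hX.an' l a b))) v =
      i (toHol _ (hX.ent v)) := by
  by_cases hb : v.2.1 = true
  · have h1 : (fun z => entries X Y z v) = fun z => X v.1 z v.2.2.1 v.2.2.2 := by
      funext z
      unfold entries
      rw [if_pos hb]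
    have h2 : toHol _ (hX.ent v) = toHol _ (hX.an v.1 v.2.2.1 v.2.2.2) :=
      hol_ext fun z => congrFun h1 z
    rw [h2]
    unfold entD entries
    rw [if_pos hb]
    rfl
  · have h1 : (fun z => entries X Y z v) = fun z => Y v.1 z v.2.2.1 v.2.2.2 := by
      funext z
      unfold entries
      rw [if_neg hb]
    have h2 : toHol _ (hX.ent v) = toHol _ (hX.an' v.1 v.2.2.1 v.2.2.2) :=
      hol_ext fun z => congrFun h1 z
    rw [h2]
    unfold entD entries
    rw [if_neg hb]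
    rfl

theorem MVec.toF (hΩ : IsOpen Ω) (hA : Amb Ω K D A i) (hM : CRing Ω M) {f : ℂ → Fin n → ℂ}
    (hf : MVec Ω M s r e f) :
    EVecF D (frac (cAlg i hM)) s r e fun j => i (toHol _ (hf.an hΩ hM j)) := by
  obtain ⟨X, Y, hX, hc⟩ := id hf
  refine ⟨fun l => Matrix.of fun a b => i (toHol _ (hX.an l a b)),
    fun l => Matrix.of fun a b => i (toHol _ (hX.an' l a b)), ⟨fun l => ?_, fun l a a' => ?_⟩,
    fun j => ?_⟩
  · ext a b
    rw [Matrix.mul_apply]
    simp only [Matrix.of_apply, ← map_mul, ← map_sum]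
    have h1 : (∑ k, toHol _ (hX.an l a k) * toHol _ (hX.an' l k b)) =
        if a = b then 1 else 0 := by
      apply hol_ext
      intro z
      rw [map_sum]
      simp only [map_mul, evz_toHol]
      have h2 := congrFun (congrFun (hX.inv l z z.2) a) b
      rw [Matrix.mul_apply] at h2
      rw [h2, Matrix.one_apply]
      split_ifs
      · exact (map_one _).symm
      · exact (map_zero _).symm
    rw [h1, Matrix.one_apply]
    split_ifs
    · exact map_one i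
    · exact map_zero i
  · obtain ⟨c, hcM, hc'⟩ := hX.coc l a a'
    refine ⟨fun m => i (toHol _ (hM.an _ (hcM m))), fun m => le_frac _ (cAlg_mem i hM (hcM m)), ?_⟩
    have hFa : AnalyticOnNhd ℂ (fun z => ∑ k, deriv (fun w => X l w a k) z * Y l z k a') Ω := by
      intro z hz
      exact Finset.analyticAt_fun_sum _ fun k _ => ((hX.an l a k).deriv z hz).mul
        (hX.an' l k a' z hz)
    have h1 : i (toHol _ hFa) =
        ∑ k, D (i (toHol _ (hX.an l a k))) * i (toHol _ (hX.an' l k a')) := by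
      simp only [der_hol hA, ← map_mul, ← map_sum]
      congr 1
      apply hol_ext
      intro z
      rw [map_sum]
      simp only [map_mul, evz_toHol]
    simp only [Matrix.of_apply]
    rw [← h1, i_pevM i (fun m => hM.an _ (hcM m)) (hX.bef l) hFa hc']
    congr 1
    funext v
    unfold before
    by_cases hb' : v.1 < l
    · simp only [if_pos hb']
      rw [entM_hol i hX v]
    · simp only [if_neg hb']
      have h3 : toHol (fun _ => (0 : ℂ)) (analyticOnNhd_const (𝕜 := ℂ) (s := Ω)) = 0 :=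
        hol_ext fun z => (map_zero (evz z)).symm
      rw [h3, map_zero]
  · obtain ⟨c, hcM, hc'⟩ := hc j
    refine ⟨fun m => i (toHol _ (hM.an _ (hcM m))), fun m => le_frac _ (cAlg_mem i hM (hcM m)), ?_⟩
    change i (toHol _ (hf.an hΩ hM j)) = _
    rw [i_pevM i (fun m => hM.an _ (hcM m)) hX.ent (hf.an hΩ hM j) hc']
    congr 1
    funext v
    exact (entM_hol i hX v).symm

/-- clearing denominators -/
theorem AlgE.toM (hA : Amb Ω K D A i) (hM : CRing Ω M)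
    {g h : ℂ → ℂ} (hg : AnalyticOnNhd ℂ g Ω) (hh : AnalyticOnNhd ℂ h Ω) {d : ℕ}
    (H : AlgE (frac (cAlg i hM)) d (i (toHol _ hg)) (i (toHol _ hh))) : AlgM Ω M d g h := by
  classical
  obtain ⟨B, hB, ⟨k0, hk0, hB2⟩, hB3⟩ := H
  choose r hr hr0 hrc using hB
  let R : K := ∏ k ∈ Finset.range (d + 1), r k
  have hR0 : R ≠ 0 := Finset.prod_ne_zero_iff.2 fun k _ => hr0 k
  have h2 : ∀ k ∈ Finset.range (d + 1), R * B k ∈ cAlg i hM := by
    intro k hk
    have h3 : R = (∏ j ∈ (Finset.range (d + 1)).erase k, r j) * r k :=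
      (Finset.prod_erase_mul _ _ hk).symm
    rw [h3, mul_assoc]
    exact Subalgebra.mul_mem _ (Subalgebra.prod_mem _ fun j _ => hr j) (hrc k)
  have h3 : ∀ k, ∃ a : ℂ → ℂ, ∃ ha : a ∈ M, k ∈ Finset.range (d + 1) →
      i (toHol a (hM.an a ha)) = R * B k := by
    intro k
    by_cases hk : k ∈ Finset.range (d + 1)
    · obtain ⟨a, ha, h4⟩ := h2 k hk
      exact ⟨a, ha, fun _ => h4.symm⟩
    · exact ⟨fun _ => 0, hM.const 0, fun h => absurd h hk⟩
  choose a haM ha using h3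
  refine ⟨a, haM, ⟨k0, hk0, ?_⟩, fun z hz => ?_⟩
  · by_contra hcon
    push Not at hcon
    have h4 := ha k0 (Finset.mem_range.2 (by omega))
    have h5 : toHol (a k0) (hM.an _ (haM k0)) = 0 := by
      apply hol_ext
      intro z
      rw [evz_toHol, hcon z z.2, map_zero]
    rw [h5, map_zero] at h4
    exact mul_ne_zero hR0 hB2 h4.symm
  · have h4 : ∑ k ∈ Finset.range (d + 1), i (toHol (a k) (hM.an _ (haM k))) *
        i (toHol _ hg) ^ k * i (toHol _ hh) ^ (d - k) = 0 := by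
      have h5 : ∑ k ∈ Finset.range (d + 1), i (toHol (a k) (hM.an _ (haM k))) *
          i (toHol _ hg) ^ k * i (toHol _ hh) ^ (d - k) =
          R * ∑ k ∈ Finset.range (d + 1), B k * i (toHol _ hg) ^ k * i (toHol _ hh) ^ (d - k) := by
        rw [Finset.mul_sum]
        refine Finset.sum_congr rfl fun k hk => ?_
        rw [ha k hk]
        ring
      rw [h5, hB3, mul_zero]
    simp only [← map_pow, ← map_mul, ← map_sum] at h4
    have h1 := (map_eq_zero_iff i hA.inj).1 h4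
    have h2 := congrArg (evz (⟨z, hz⟩ : Ω)) h1
    rw [map_sum, map_zero] at h2
    rw [← h2]
    refine Finset.sum_congr rfl fun k _ => ?_
    rw [map_mul, map_mul, map_pow, map_pow, evz_toHol, evz_toHol, evz_toHol]

end curve

/-- **Uniform degrees over an arbitrary differential ring.** -/
theorem gen_uniform (n D s r e : ℕ) : ∃ d : ℕ,
    ∀ (S : Set (MvPolynomial (Fin (n + 1)) ℂ)) (G : MvPolynomial (Fin (n + 1)) ℂ),
      (∀ F ∈ S, ∃ e, e ≤ D ∧ F.IsHomogeneous e) → (∃ e, e ≤ D ∧ G.IsHomogeneous e) →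
      RatIn S G d → ∀ Ω : Set ℂ, IsOpen Ω → IsPreconnected Ω → ∀ M : Set (ℂ → ℂ),
        CRing Ω M → ∀ f : ℂ → Fin (n + 1) → ℂ, MVec Ω M s r e f →
        (∀ z ∈ Ω, ∀ F ∈ S, eval (f z) F = 0) →
        (∀ z ∈ Ω, eval (f z) G = 0) ∨ ∀ u v, AlgM Ω M d (fun z => f z u) fun z => f z v := by
  obtain ⟨d, hd⟩ := gen_uniform_diff n D s r e
  refine ⟨d, ?_⟩
  intro S G hS hG hrat Ω hΩ hΩc M hM f hf hF
  rcases Ω.eq_empty_or_nonempty with h0 | h0
  · left
    intro z hz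
    rw [h0] at hz
    exact absurd hz (notMem_empty z)
  obtain ⟨K, _, _, D, A, i, hA⟩ := exists_amb hΩ hΩc h0
  rcases hd S G hS hG hrat K D hA.con _ (fun y hy => stab_frac (cAlg_stab hA hM) hy) _
    (hf.toF hΩ hA hM) (fun F hFF =>
    (vanish_iff hA.inj (f := f) (fun j => hf.an hΩ hM j) F).2 fun z hz => hF z hz F hFF) with
    h1 | h1
  · right
    intro u v
    exact (h1 u v).toM hA hM (hf.an hΩ hM u) (hf.an hΩ hM v)
  · left
    exact (vanish_iff hA.inj (f := f) (fun j => hf.an hΩ hM j) G).1 h1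

/-- **The special sets over an arbitrary differential ring.** -/
theorem gen_special {n : ℕ} (S : Set (MvPolynomial (Fin (n + 1)) ℂ))
    (hS : ∀ F ∈ S, ∃ e, F.IsHomogeneous e) (s r e : ℕ) : ∃ d : ℕ,
    ∀ G : MvPolynomial (Fin (n + 1)) ℂ, (∃ e, G.IsHomogeneous e) →
      RatIn S G d → ∀ Ω : Set ℂ, IsOpen Ω → IsPreconnected Ω → ∀ M : Set (ℂ → ℂ),
        CRing Ω M → ∀ f : ℂ → Fin (n + 1) → ℂ, MVec Ω M s r e f →
        (∀ z ∈ Ω, ∀ F ∈ S, eval (f z) F = 0) →
        (∀ z ∈ Ω, eval (f z) G = 0) ∨ ∀ u v, AlgM Ω M d (fun z => f z u) fun z => f z v := by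
  obtain ⟨d, hd⟩ := gen_special_diff S hS s r e
  refine ⟨d, ?_⟩
  intro G hG hrat Ω hΩ hΩc M hM f hf hF
  rcases Ω.eq_empty_or_nonempty with h0 | h0
  · left
    intro z hz
    rw [h0] at hz
    exact absurd hz (notMem_empty z)
  obtain ⟨K, _, _, D, A, i, hA⟩ := exists_amb hΩ hΩc h0
  rcases hd G hG hrat K D hA.con _ (fun y hy => stab_frac (cAlg_stab hA hM) hy) _
    (hf.toF hΩ hA hM) (fun F hFF =>
    (vanish_iff hA.inj (f := f) (fun j => hf.an hΩ hM j) F).2 fun z hz => hF z hz F hFF) with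
    h1 | h1
  · right
    intro u v
    exact (h1 u v).toM hA hM (hf.an hΩ hM u) (hf.an hΩ hM v)
  · left
    exact (vanish_iff hA.inj (f := f) (fun j => hf.an hΩ hM j) G).1 h1

theorem ofF_affM {n s r e d : ℕ} {S : Set (MvPolynomial (Fin n) ℂ)}
    {G : MvPolynomial (Fin n) ℂ}
    (h : ∀ (K : Type) [Field K] [Algebra ℂ K] (D : Derivation ℂ K K), Cst D →
        ∀ E : IntermediateField ℂ K, (∀ y ∈ E, D y ∈ E) → ∀ x : Fin n → K, EVecF D E s r e x →
        (∀ F ∈ S, aeval x F = 0) → (∀ u, AlgE E d (x u) 1) ∨ aeval x G = 0)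
    (Ω : Set ℂ) (hΩ : IsOpen Ω) (hΩc : IsPreconnected Ω) (M : Set (ℂ → ℂ)) (hM : CRing Ω M)
    (f : ℂ → Fin n → ℂ) (hf : MVec Ω M s r e f) (hF : ∀ z ∈ Ω, ∀ F ∈ S, eval (f z) F = 0) :
    (∀ z ∈ Ω, eval (f z) G = 0) ∨ ∀ u, AlgM Ω M d (fun z => f z u) fun _ => 1 := by
  rcases Ω.eq_empty_or_nonempty with h0 | h0
  · left
    intro z hz
    rw [h0] at hz
    exact absurd hz (notMem_empty z)
  obtain ⟨K, _, _, D, A, i, hA⟩ := exists_amb hΩ hΩc h0
  rcases h K D hA.con _ (fun y hy => stab_frac (cAlg_stab hA hM) hy) _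
    (hf.toF hΩ hA hM) (fun F hFF =>
    (vanish_iff hA.inj (f := f) (fun j => hf.an hΩ hM j) F).2 fun z hz => hF z hz F hFF) with
    h1 | h1
  · right
    intro u
    refine AlgE.toM hA hM (hf.an hΩ hM u) analyticOnNhd_const ?_
    rw [Pool.Agent.Q139.EB.hol_one]
    exact h1 u
  · left
    exact (vanish_iff hA.inj (f := f) (fun j => hf.an hΩ hM j) G).1 h1

/-- **Uniform degrees over an arbitrary differential ring, affine case.** -/
theorem genA_uniform (n D s r e : ℕ) : ∃ d : ℕ,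
    ∀ (S : Set (MvPolynomial (Fin n) ℂ)) (G : MvPolynomial (Fin n) ℂ),
      (∀ F ∈ S, F.totalDegree ≤ D) → G.totalDegree ≤ D → LauIn S G d →
      ∀ Ω : Set ℂ, IsOpen Ω → IsPreconnected Ω → ∀ M : Set (ℂ → ℂ), CRing Ω M →
        ∀ f : ℂ → Fin n → ℂ, MVec Ω M s r e f → (∀ z ∈ Ω, ∀ F ∈ S, eval (f z) F = 0) →
        (∀ z ∈ Ω, eval (f z) G = 0) ∨ ∀ u, AlgM Ω M d (fun z => f z u) fun _ => 1 := by
  obtain ⟨d, hd⟩ := genA_uniform_diff n D s r e
  exact ⟨d, fun S G hS hG h => ofF_affM (hd S G hS hG h)⟩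

/-- **The special sets over an arbitrary differential ring, affine case.** -/
theorem genA_special {n : ℕ} (S : Set (MvPolynomial (Fin n) ℂ)) (s r e : ℕ) :
    ∃ d : ℕ, ∀ G : MvPolynomial (Fin n) ℂ, LauIn S G d →
      ∀ Ω : Set ℂ, IsOpen Ω → IsPreconnected Ω → ∀ M : Set (ℂ → ℂ), CRing Ω M →
        ∀ f : ℂ → Fin n → ℂ, MVec Ω M s r e f → (∀ z ∈ Ω, ∀ F ∈ S, eval (f z) F = 0) →
        (∀ z ∈ Ω, eval (f z) G = 0) ∨ ∀ u, AlgM Ω M d (fun z => f z u) fun _ => 1 := by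
  obtain ⟨d, hd⟩ := genA_special_diff S s r e
  exact ⟨d, fun G h => ofF_affM (hd G h)⟩

end Pool.Agent.Q139.EG
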