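import Pool.Agent.Q139.EG.MainA
import Pool.Agent.Q139.EB.Lang

/-!
Varieties without maps from complex tori, varieties all of whose subvarieties are of general type,
and varieties of general type: curves given by iterated linear differential equations with arbitrary
coefficients, with small coefficients and with periodic coefficients.
-/

set_option autoImplicit false

namespace Pool.Agent.Q139.EG

open Filter Topology Set Asymptotics MvPolynomial
open scoped LinearAlgebra.Projectivization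
open Pool.Agent.TH143.EL Pool.Agent.Y377.ST Pool.Agent.Q1.SL Pool.Agent.H533R3.SL
open Pool.Agent.TH143.GT (FunField)
open Pool.Agent.W602.GT (IsForm GeneralType AllGeneralType coords)
open Pool.Agent.Q139.EB (OnV TorusFree exists_lattice ratIn_of_torus torusFree_of_allGeneral
  not_uniruled_of_gt cone cone_form cone_coeff TorusIn)

variable {N : ℕ}

/-- the lattice generated by the multiples of two independent numbers -/
theorem exists_pair {a b : ℂ} (hab : LinearIndependent ℝ ![a, b]) {m : ℕ} (hm : m ≠ 0) :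
    ∃ L : PeriodPair, L.ω₁ = (m : ℂ) * a ∧ L.ω₂ = (m : ℂ) * b := by
  have hm' : (m : ℝ) ≠ 0 := by exact_mod_cast hm
  have hind : LinearIndependent ℝ ![(m : ℂ) * a, (m : ℂ) * b] := by
    rw [LinearIndependent.pair_iff] at hab ⊢
    intro s t hst
    have h2 := hab (s * m) (t * m) (by
      rw [← hst]
      simp only [Complex.real_smul]
      push_cast
      ring)
    exact ⟨(mul_eq_zero.1 h2.1).resolve_right hm', (mul_eq_zero.1 h2.2).resolve_right hm'⟩
  exact ⟨⟨_, _, hind⟩, rfl, rfl⟩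

/-- a map with a subgroup of finite index of periods -/
theorem lattice_inv {L : AddSubgroup ℂ} {f : ℂ → ℙ ℂ (Fin (N + 1) → ℂ)} {Λ : AddSubgroup L}
    (h : ∀ l ∈ Λ, ∀ z, f (z + (l : ℂ)) = f z) {a b : ℂ} (ha : a ∈ L) (hb : b ∈ L)
    {M : PeriodPair} (h1 : M.ω₁ = (Λ.index : ℂ) * a) (h2 : M.ω₂ = (Λ.index : ℂ) * b)
    (l : M.lattice) (z : ℂ) : f (z + (l : ℂ)) = f z := by
  obtain ⟨i, j, hij⟩ := M.mem_lattice.1 l.2
  have h3 : ((Λ.index • (i • (⟨a, ha⟩ : L) + j • ⟨b, hb⟩) : L) : ℂ) = (l : ℂ) := by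
    rw [← hij, h1, h2]
    push_cast
    simp only [zsmul_eq_mul, nsmul_eq_mul]
    ring
  rw [← h3]
  exact h _ (AddSubgroup.nsmul_index_mem Λ _) z

/-- **Varieties without maps from tori, uniformly.** -/
theorem torusFree_gen (n D0 s r e : ℕ) : ∃ D : ℕ,
    ∀ S : Set (MvPolynomial (Fin (n + 1)) ℂ), (∀ F ∈ S, ∃ k, k ≤ D0 ∧ F.IsHomogeneous k) →
      TorusFree S →
      (∀ Ω : Set ℂ, IsOpen Ω → IsPreconnected Ω → Ω.Nonempty → ∀ M : Set (ℂ → ℂ), CRing Ω M →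
        ∀ f : ℂ → Fin (n + 1) → ℂ, MVec Ω M s r e f →
        (∀ z ∈ Ω, ∀ F ∈ S, eval (f z) F = 0) →
        ∀ u v, AlgM Ω M D (fun z => f z u) fun z => f z v) ∧
      (∀ f : ℂ → ℙ ℂ (Fin (n + 1) → ℂ), HolMap f → OnV S f → SmallCurve s r e f →
        ∀ z w, f z = f w) ∧
      ∀ (L : AddSubgroup ℂ) (f : ℂ → ℙ ℂ (Fin (n + 1) → ℂ)), HolMap f → OnV S f →
        PerCurve L s r e f → (∃ Λ : AddSubgroup L, Λ.index ≠ 0 ∧ Λ.index ≤ D ∧
          ∀ l ∈ Λ, ∀ z, f (z + (l : ℂ)) = f z) ∧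
        ((∃ a ∈ L, ∃ b ∈ L, LinearIndependent ℝ ![a, b]) → ∀ z w, f z = f w) := by
  obtain ⟨D, hD⟩ := gen_uniform n D0 s r e
  refine ⟨max D (D ^ (n + 1)), ?_⟩
  intro S hS hT
  have hS' : ∀ F ∈ S, ∃ k, F.IsHomogeneous k := fun F hF => by
    obtain ⟨k, -, hk⟩ := hS F hF
    exact ⟨k, hk⟩
  obtain ⟨L0⟩ := exists_lattice
  have hrat : RatIn S 1 D := by
    refine ratIn_of_torus L0 hS' ⟨0, isHomogeneous_one _ _⟩ (fun g h1 h2 h3 h4 => ?_) D
    obtain ⟨z, w, h5⟩ := h4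
    exact absurd (hT L0 g h1 h2 h3 z w) h5
  have hbase := hD S 1 hS ⟨0, Nat.zero_le _, isHomogeneous_one _ _⟩ hrat
  refine ⟨fun Ω hΩ hΩc hne M hM f hf hF => ?_, fun f hf hfS hE z w => ?_,
    fun L f hf hfS hE => ?_⟩
  · rcases hbase Ω hΩ hΩc M hM f hf hF with h1 | h1
    · obtain ⟨z, hz⟩ := hne
      have h2 := h1 z hz
      rw [map_one] at h2
      exact absurd h2 one_ne_zero
    · exact fun u v => (h1 u v).mono (hM.const 0) (le_max_left _ _)
  · by_contra hne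
    have h1 := small_cases hS' ⟨0, isHomogeneous_one _ _⟩ hbase hf hfS ⟨z, w, hne⟩ hE 0
    rw [map_one] at h1
    exact one_ne_zero h1
  · rcases per_cases hS' ⟨0, isHomogeneous_one _ _⟩ hbase L hf hfS hE with h1 | ⟨h1, h2⟩
    · have h2 := h1 0
      rw [map_one] at h2
      exact absurd h2 one_ne_zero
    · have hinv : ∀ l ∈ perSub L f, ∀ z, f (z + (l : ℂ)) = f z := fun l hl z => hl z
      refine ⟨⟨perSub L f, h1, h2.trans (le_max_right _ _), hinv⟩, ?_⟩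
      rintro ⟨a, ha, b, hb, hab⟩ z w
      obtain ⟨M, hM1, hM2⟩ := exists_pair hab h1
      exact hT M f hf (fun l z => lattice_inv hinv ha hb hM1 hM2 l z) hfS z w

/-- **Varieties all of whose subvarieties are of general type, uniformly.** -/
theorem lang_gen (n D0 s r e : ℕ) : ∃ D : ℕ,
    ∀ (ι : Type) (F : ι → MvPolynomial (Fin (n + 1)) ℂ),
      (∀ i, ∃ k, k ≤ D0 ∧ (F i).IsHomogeneous k) → AllGeneralType F →
      (∀ Ω : Set ℂ, IsOpen Ω → IsPreconnected Ω → Ω.Nonempty → ∀ M : Set (ℂ → ℂ), CRing Ω M →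
        ∀ f : ℂ → Fin (n + 1) → ℂ, MVec Ω M s r e f →
        (∀ z ∈ Ω, ∀ i, eval (f z) (F i) = 0) →
        ∀ u v, AlgM Ω M D (fun z => f z u) fun z => f z v) ∧
      (∀ f : ℂ → ℙ ℂ (Fin (n + 1) → ℂ), HolMap f → (∀ z i, eval (f z).rep (F i) = 0) →
        SmallCurve s r e f → ∀ z w, f z = f w) ∧
      ∀ (L : AddSubgroup ℂ) (f : ℂ → ℙ ℂ (Fin (n + 1) → ℂ)), HolMap f →
        (∀ z i, eval (f z).rep (F i) = 0) →
        PerCurve L s r e f → (∃ Λ : AddSubgroup L, Λ.index ≠ 0 ∧ Λ.index ≤ D ∧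
          ∀ l ∈ Λ, ∀ z, f (z + (l : ℂ)) = f z) ∧
        ((∃ a ∈ L, ∃ b ∈ L, LinearIndependent ℝ ![a, b]) → ∀ z w, f z = f w) := by
  obtain ⟨D, hD⟩ := torusFree_gen n D0 s r e
  refine ⟨D, ?_⟩
  intro ι F hF hgen
  have hF' : ∀ i, IsForm (F i) := fun i => by
    obtain ⟨k, -, hk⟩ := hF i
    exact ⟨k, hk⟩
  obtain ⟨h1, h2, h3⟩ := hD (Set.range F) (by
    rintro _ ⟨i, rfl⟩
    exact hF i) (torusFree_of_allGeneral hF' hgen)
  refine ⟨fun Ω hΩ hΩc hne M hM f hf hFf => h1 Ω hΩ hΩc hne M hM f hf ?_,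
    fun f hf hFf hE => h2 f hf ?_ hE, fun L f hf hFf hE => h3 L f hf ?_ hE⟩
  · rintro z hz _ ⟨i, rfl⟩
    exact hFf z hz i
  · rintro z _ ⟨i, rfl⟩
    exact hFf z i
  · rintro z _ ⟨i, rfl⟩
    exact hFf z i

/-- the forms in the ideal of a variety of general type -/
theorem gt_ratDeg {p : Ideal (MvPolynomial (Fin (N + 1)) ℂ)} {K : Type} [Field K]
    [Algebra ℂ K] {w : ℕ} {y : Fin (N + 1) → K} (hy : FunField p 1 K w y)
    (hL : GeneralType ℂ K w) :
    RatDeg (Ideal.span {F : MvPolynomial (Fin (N + 1)) ℂ | F ∈ p ∧ ∃ k, F.IsHomogeneous k}) := by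
  classical
  let S : Set (MvPolynomial (Fin (N + 1)) ℂ) := {F | F ∈ p ∧ ∃ k, F.IsHomogeneous k}
  let I : Ideal (MvPolynomial (Fin (N + 1)) ℂ) := RingHom.ker (cone y)
  have hprime : I.IsPrime := RingHom.ker_isPrime _
  have hform : ∀ F : MvPolynomial (Fin (N + 1)) ℂ, (∃ k, F.IsHomogeneous k) →
      (F ∈ I ↔ aeval y F = 0) := by
    rintro F ⟨k, hk⟩
    change cone y F = 0 ↔ _
    rw [cone_form y hk]
    constructor
    · intro h
      exact Polynomial.C_eq_zero.1 ((mul_eq_zero.1 h).resolve_left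
        (pow_ne_zero _ Polynomial.X_ne_zero))
    · intro h
      rw [h, Polynomial.C_0, mul_zero]
  have hspan : Ideal.span S = I := by
    apply le_antisymm
    · rw [Ideal.span_le]
      intro F hF
      exact (hform F hF.2).2 (hy.sub.mem F hF.1)
    · intro F hF
      rw [← sum_homogeneousComponent F]
      refine Ideal.sum_mem _ fun i _ => Ideal.subset_span ?_
      have h1 : aeval y (homogeneousComponent i F) = 0 := by
        rw [← cone_coeff]
        have h2 : cone y F = 0 := hF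
        rw [h2, Polynomial.coeff_zero]
      exact ⟨hy.mem _ ⟨i, homogeneousComponent_isHomogeneous i F⟩ h1,
        i, homogeneousComponent_isHomogeneous i F⟩
  have hy' : FunField I 1 K w y := by
    refine ⟨⟨hy.sub.ne, fun H hH => ?_, hy.sub.off, hy.sub.gen, hy.sub.dim⟩, fun H hH h =>
      (hform H hH).2 h⟩
    change aeval y H = 0
    rw [← sum_homogeneousComponent H, map_sum]
    refine Finset.sum_eq_zero fun i _ => ?_
    rw [← cone_coeff]
    have h2 : cone y H = 0 := hH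
    rw [h2, Polynomial.coeff_zero]
  have h1 := (not_uniruled_iff hprime).1 (not_uniruled_of_gt hy' hL)
  rw [← hspan] at h1
  exact h1

/-- **Projective varieties of general type.** -/
theorem gt_gen {p : Ideal (MvPolynomial (Fin (N + 1)) ℂ)} {K : Type} [Field K]
    [Algebra ℂ K] {w : ℕ} {y : Fin (N + 1) → K} (hy : FunField p 1 K w y)
    (hL : GeneralType ℂ K w) (s r e : ℕ) :
    ∃ (G : MvPolynomial (Fin (N + 1)) ℂ) (D : ℕ), (∃ k, G.IsHomogeneous k) ∧ G ∉ p ∧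
      (∀ Ω : Set ℂ, IsOpen Ω → IsPreconnected Ω → ∀ M : Set (ℂ → ℂ), CRing Ω M →
        ∀ f : ℂ → Fin (N + 1) → ℂ, MVec Ω M s r e f →
        (∀ z ∈ Ω, ∀ F ∈ p, (∃ k, F.IsHomogeneous k) → eval (f z) F = 0) →
        (∀ z ∈ Ω, eval (f z) G = 0) ∨ ∀ u v, AlgM Ω M D (fun z => f z u) fun z => f z v) ∧
      (∀ f : ℂ → ℙ ℂ (Fin (N + 1) → ℂ), HolMap f → (∀ z, InV p (f z)) → (∃ z w, f z ≠ f w) →
        SmallCurve s r e f → ∀ z, eval (f z).rep G = 0) ∧
      (∀ (L : AddSubgroup ℂ) (f : ℂ → ℙ ℂ (Fin (N + 1) → ℂ)), HolMap f → (∀ z, InV p (f z)) →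
        PerCurve L s r e f → (∀ z, eval (f z).rep G = 0) ∨
          ∃ Λ : AddSubgroup L, Λ.index ≠ 0 ∧ Λ.index ≤ D ∧
            ∀ l ∈ Λ, ∀ z, f (z + (l : ℂ)) = f z) := by
  classical
  let S : Set (MvPolynomial (Fin (N + 1)) ℂ) := {F | F ∈ p ∧ ∃ k, F.IsHomogeneous k}
  have hS : ∀ F ∈ S, ∃ k, F.IsHomogeneous k := fun F hF => hF.2
  have hR : RatDeg (Ideal.span S) := gt_ratDeg hy hL
  obtain ⟨G, D, hG1, hG2, hG3⟩ := genDeg_of_ratDeg hS hR s r e
  refine ⟨G, max D (D ^ (N + 1)), hG1, ?_, ?_, ?_, ?_⟩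
  · intro h
    exact hG2 (Ideal.subset_span ⟨h, hG1⟩)
  · intro Ω hΩ hΩc M hM f hf hF
    rcases hG3 Ω hΩ hΩc M hM f hf fun z hz F hFS => hF z hz F hFS.1 hFS.2 with h1 | h1
    · exact Or.inl h1
    · exact Or.inr fun u v => (h1 u v).mono (hM.const 0) (le_max_left _ _)
  · intro f hf hfp hnc hE
    exact small_cases hS hG1 hG3 hf (fun z F hF => hfp z F hF.1 hF.2) hnc hE
  · intro L f hf hfp hE
    rcases per_cases hS hG1 hG3 L hf (fun z F hF => hfp z F hF.1 hF.2) hE with h1 | ⟨h1, h2⟩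
    · exact Or.inl h1
    · exact Or.inr ⟨perSub L f, h1, h2.trans (le_max_right _ _), fun l hl z => hl z⟩

/-- **Finitely many tori, uniformly in the variety, arbitrary elliptic coefficients.** -/
theorem tori_gen (n D s r e : ℕ) : ∃ N : ℕ, ∀ (L : PeriodPair)
    (S : Set (MvPolynomial (Fin (n + 1)) ℂ)) (G : MvPolynomial (Fin (n + 1)) ℂ),
      (∀ F ∈ S, ∃ e, e ≤ D ∧ F.IsHomogeneous e) → (∃ e, e ≤ D ∧ G.IsHomogeneous e) →
      (∀ Λ : AddSubgroup L.lattice, Λ.index ≠ 0 → Λ.index ≤ N → TorusIn L Λ S G) →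
      ∀ f : ℂ → ℙ ℂ (Fin (n + 1) → ℂ), HolMap f → OnV S f →
        (PerCurve L.lattice.toAddSubgroup s r e f ∨ SmallCurve s r e f) →
        (∃ z w, f z ≠ f w) → ∀ z, eval (f z).rep G = 0 := by
  obtain ⟨d, hd⟩ := gen_uniform n D s r e
  refine ⟨max 1 (d ^ (n + 1)), ?_⟩
  intro L S G hS hG hT f hf hfS hE hnc
  have hS' : ∀ F ∈ S, ∃ e, F.IsHomogeneous e := fun F hF => by
    obtain ⟨e, -, he⟩ := hS F hF
    exact ⟨e, he⟩
  have hG' : ∃ e, G.IsHomogeneous e := by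
    obtain ⟨e, -, he⟩ := hG
    exact ⟨e, he⟩
  have hrat : RatIn S G d := by
    refine ratIn_of_torus L hS' hG' (fun g h1 h2 h3 h4 => ?_) d
    exact hT ⊤ (by rw [AddSubgroup.index_top]; exact one_ne_zero)
      (by rw [AddSubgroup.index_top]; exact le_max_left _ _) g h1 (fun l _ => h2 l) h3 h4
  rcases hE with hE | hE
  · rcases per_cases hS' hG' (hd S G hS hG hrat) _ hf hfS hE with h1 | ⟨h2, h3⟩
    · exact h1
    · exact hT (perSub L.lattice.toAddSubgroup f) h2 (h3.trans (le_max_right _ _)) f hf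
        (fun l hl z => hl z) hfS hnc
  · exact small_cases hS' hG' (hd S G hS hG hrat) hf hfS hnc hE

end Pool.Agent.Q139.EG
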