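import Pool.Agent.Q139.EB.Index
import Pool.Agent.Q139.EG.Curve

/-!
Curves which are algebraic over the functions with given periods are invariant under a subgroup of
bounded index of the group of the periods.
-/

set_option autoImplicit false

namespace Pool.Agent.Q139.EG

open Filter Topology Set MvPolynomial
open scoped LinearAlgebra.Projectivization
open Pool.Agent.TH143.EL Pool.Agent.Y377.ST Pool.Agent.Q1.SL
open Pool.Agent.Q139.EB (quo quo_rep quo_mero quo_ne quo_self eq_of_quo)

variable {n : ℕ}

/-- The ring of the functions which are meromorphic on the plane, have all elements of `L` as periods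
and are analytic on `Ω`. -/
def PerOn (L : AddSubgroup ℂ) (Ω : Set ℂ) : Set (ℂ → ℂ) :=
  {a | Meromorphic a ∧ AnalyticOnNhd ℂ a Ω ∧ ∀ l ∈ L, ∀ z, a (z + l) = a z}

theorem ring_per (L : AddSubgroup ℂ) (Ω : Set ℂ) : CRing Ω (PerOn L Ω) where
  an g hg := hg.2.1
  const c := ⟨Meromorphic.const c, analyticOnNhd_const, fun _ _ _ => rfl⟩
  add g hg h hh := ⟨hg.1.add hh.1, hg.2.1.add hh.2.1, fun l hl z => by
    beta_reduce
    rw [hg.2.2 l hl, hh.2.2 l hl]⟩
  mul g hg h hh := ⟨hg.1.mul hh.1, hg.2.1.mul hh.2.1, fun l hl z => by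
    beta_reduce
    rw [hg.2.2 l hl, hh.2.2 l hl]⟩
  der g hg := ⟨deriv g, ⟨fun z => (hg.1 z).deriv, hg.2.1.deriv, fun l hl z => by
    have h1 : (fun w => g (w + l)) = g := funext fun w => hg.2.2 l hl w
    have h2 := deriv_comp_add_const g l z
    rw [h1] at h2
    exact h2.symm⟩, fun _ _ => rfl⟩

/-- the elements of `L` which are periods of `f` -/
def perSub (L : AddSubgroup ℂ) (f : ℂ → ℙ ℂ (Fin (n + 1) → ℂ)) : AddSubgroup L where
  carrier := {l | ∀ z, f (z + l) = f z}
  zero_mem' := fun z => by
    rw [ZeroMemClass.coe_zero, add_zero]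
  add_mem' := by
    intro a b ha hb z
    have h1 : z + ((a + b : L) : ℂ) = (z + a) + b := by
      push_cast
      ring
    rw [h1, hb, ha]
  neg_mem' := by
    intro a ha z
    have h1 := ha (z + ((-a : L) : ℂ))
    have h2 : z + ((-a : L) : ℂ) + a = z := by
      push_cast
      ring
    rw [h2] at h1
    exact h1.symm

/-- **The index of the group of the periods.** -/
theorem perIx_at (L : AddSubgroup ℂ) {d : ℕ} {f : ℂ → ℙ ℂ (Fin (n + 1) → ℂ)} (hf : HolMap f)
    {Ω : Set ℂ} (hΩ : IsOpen Ω) {z1 : ℂ} (hz1 : z1 ∈ Ω) {v : Fin (n + 1)} (hv : (f z1).rep v ≠ 0)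
    {h : ℂ → Fin (n + 1) → ℂ}
    (hh : ∀ j, AnalyticOnNhd ℂ (fun z => h z j) Ω) (hr : ∀ z ∈ Ω, Rep (f z) (h z))
    (H : ∀ u, AlgM Ω (PerOn L Ω) d (fun z => h z u) fun z => h z v) :
    (perSub L f).index ≠ 0 ∧ (perSub L f).index ≤ d ^ (n + 1) := by
  classical
  have hhv : h z1 v ≠ 0 := by
    intro h0
    apply hv
    have h1 := (rep_iff (hr z1 hz1)).1 (rep_rep (f z1))
    obtain ⟨k, hk⟩ := Function.ne_iff.1 (hr z1 hz1).1
    have hk' : h z1 k ≠ 0 := hk
    have h2 := h1.2 k v
    rw [h0, zero_mul] at h2
    exact (mul_eq_zero.1 h2).resolve_left hk'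
  have hΩn : Ω ∈ 𝓝 z1 := hΩ.mem_nhds hz1
  choose A hA1 hA2 hA3 using H
  -- the polynomials
  let P : Fin (n + 1) → ℂ → Polynomial ℂ := fun u z =>
    ∑ k ∈ Finset.range (d + 1), Polynomial.C (A u k z) * Polynomial.X ^ k
  have hPdeg : ∀ u z, (P u z).natDegree ≤ d := by
    intro u z
    refine Polynomial.natDegree_sum_le_of_forall_le _ _ fun k hk => ?_
    have := Finset.mem_range.1 hk
    exact (Polynomial.natDegree_C_mul_X_pow_le _ _).trans (by omega)
  have hPper : ∀ u (l : L) z, P u (z + l) = P u z := by
    intro u l z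
    have h1 : ∀ k, A u k (z + l) = A u k z := fun k => (hA1 u k).2.2 l l.2 z
    simp only [P, h1]
  have hAm : ∀ u k, Meromorphic (A u k) := fun u k => (hA1 u k).1
  have hPne : ∀ u, ∀ᶠ z in codiscrete ℂ, P u z ≠ 0 := by
    intro u
    obtain ⟨k, hk, z, hz, hkz⟩ := hA2 u
    have h1 : ∀ᶠ z in codiscrete ℂ, A u k z ≠ 0 := by
      apply mero_ne (hAm u k)
      intro h0
      apply hkz
      exact eq_of_codis h0 ((hA1 u k).2.1 z hz).continuousAt continuousAt_const
    filter_upwards [h1] with z hz h0
    apply hz
    have h2 := congrArg (fun p => Polynomial.coeff p k) h0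
    simp only [P, Polynomial.finsetSum_coeff, Polynomial.coeff_C_mul, Polynomial.coeff_X_pow,
      mul_ite, mul_one, mul_zero, Polynomial.coeff_zero] at h2
    rwa [Finset.sum_ite_eq (Finset.range (d + 1)) k, if_pos (Finset.mem_range.2 (by omega))] at h2
  have hroot : ∀ u, ∀ᶠ z in codiscrete ℂ, (P u z).eval (quo f v u z) = 0 := by
    intro u
    have hm : Meromorphic fun z => (P u z).eval (quo f v u z) := by
      have h1 : (fun z => (P u z).eval (quo f v u z)) =
          ∑ k ∈ Finset.range (d + 1), (A u k) * (quo f v u) ^ k := by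
        funext z
        simp only [P, Polynomial.eval_finsetSum, Polynomial.eval_mul, Polynomial.eval_C,
          Polynomial.eval_pow, Polynomial.eval_X, Finset.sum_apply, Pi.mul_apply, Pi.pow_apply]
      rw [h1]
      intro z
      refine MeromorphicAt.sum fun k _ => ?_
      exact (hAm u k z).mul ((quo_mero hf v u z).pow k)
    apply mero_id hm (x := z1)
    apply freq_of_ev
    filter_upwards [hΩn, (hh v z1 hz1).continuousAt.eventually_ne hhv] with z hz hvz
    rw [quo_rep (hr z hz)]
    have h2 := hA3 u z hz
    have h3 : (P u z).eval (h z u / h z v) * h z v ^ d =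
        ∑ k ∈ Finset.range (d + 1), A u k z * h z u ^ k * h z v ^ (d - k) := by
      simp only [P, Polynomial.eval_finsetSum, Polynomial.eval_mul, Polynomial.eval_C,
        Polynomial.eval_pow, Polynomial.eval_X]
      rw [Finset.sum_mul]
      refine Finset.sum_congr rfl fun k hk => ?_
      have hk' : k ≤ d := by
        have := Finset.mem_range.1 hk
        omega
      have h4 : h z v ^ d = h z v ^ k * h z v ^ (d - k) := by
        rw [← pow_add, Nat.add_sub_cancel' hk']
      rw [h4, div_pow]
      have h5 : h z v ≠ 0 := hvz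
      field_simp
    rw [h2] at h3
    exact (mul_eq_zero.1 h3).resolve_right (pow_ne_zero _ hvz)
  -- finite sets of cosets
  have hfin : ∀ T : Finset (L ⧸ perSub L f), T.card ≤ d ^ (n + 1) := by
    intro T
    let s : (L ⧸ perSub L f) → L := fun t => t.out
    have hdist : ∀ t t' : L ⧸ perSub L f, t ≠ t' → ∃ u, ∀ᶠ z in codiscrete ℂ,
        quo f v u (z + s t) ≠ quo f v u (z + s t') := by
      intro t t' htt
      by_contra hcon
      push Not at hcon
      apply htt
      have h1 : ∀ u, ∀ᶠ z in codiscrete ℂ, quo f v u (z + s t) = quo f v u (z + s t') := by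
        intro u
        by_contra h2
        apply hcon u
        have h3 := mero_ne (f := fun z => quo f v u (z + s t) - quo f v u (z + s t'))
          ((mero_comp_add (quo_mero hf v u) (s t)).sub
            (mero_comp_add (quo_mero hf v u) (s t'))) (fun h4 => h2 (by
              filter_upwards [h4] with z hz
              exact sub_eq_zero.1 hz))
        filter_upwards [h3] with z hz
        exact sub_ne_zero.1 hz
      have h2 := eq_of_quo hf hv h1
      have h3 : -(s t) + s t' ∈ perSub L f := by
        intro z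
        have h4 := h2 (z - s t)
        have h5 : z + ((-(s t) + s t' : L) : ℂ) = z - s t + s t' := by
          push_cast
          ring
        rw [h5, ← h4, sub_add_cancel]
      rw [← QuotientAddGroup.out_eq' t, ← QuotientAddGroup.out_eq' t']
      exact QuotientAddGroup.eq.2 h3
    have hall : ∀ᶠ z in codiscrete ℂ, (∀ u, P u z ≠ 0) ∧
        (∀ t ∈ T, ∀ u, (P u z).eval (quo f v u (z + s t)) = 0) ∧
        ∀ t ∈ T, ∀ t' ∈ T, t ≠ t' → ∃ u, quo f v u (z + s t) ≠ quo f v u (z + s t') := by
      refine (eventually_all.2 hPne).and (Eventually.and ?_ ?_)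
      · rw [Filter.eventually_all_finset]
        intro t _
        refine eventually_all.2 fun u => ?_
        filter_upwards [codis_shift (s t : ℂ) (hroot u)] with z hz
        rwa [hPper] at hz
      · rw [Filter.eventually_all_finset]
        intro t _
        rw [Filter.eventually_all_finset]
        intro t' _
        by_cases htt : t = t'
        · exact Eventually.of_forall fun z h => absurd htt h
        · obtain ⟨u, hu⟩ := hdist t t' htt
          filter_upwards [hu] with z hz _
          exact ⟨u, hz⟩
    obtain ⟨z, hz1, hz2, hz3⟩ := (codis_ne hall)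
    let R : Finset (Fin (n + 1) → ℂ) := Fintype.piFinset fun u => (P u z).roots.toFinset
    have hR : R.card ≤ d ^ (n + 1) := by
      rw [Fintype.card_piFinset]
      calc ∏ u, ((P u z).roots.toFinset).card ≤ ∏ _u : Fin (n + 1), d := by
            refine Finset.prod_le_prod' fun u _ => ?_
            exact (Multiset.toFinset_card_le _).trans
              ((Polynomial.card_roots' _).trans (hPdeg u z))
        _ = d ^ (n + 1) := by
            rw [Finset.prod_const, Finset.card_univ, Fintype.card_fin]
    refine le_trans ?_ hR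
    refine Finset.card_le_card_of_injOn (fun t u => quo f v u (z + s t)) ?_ ?_
    · intro t ht
      have h1 : (fun u => quo f v u (z + s t)) ∈ R := by
        rw [Fintype.mem_piFinset]
        intro u
        rw [Multiset.mem_toFinset, Polynomial.mem_roots (hz1 u)]
        exact hz2 t ht u
      exact h1
    · intro t ht t' ht' htt
      by_contra hne
      obtain ⟨u, hu⟩ := hz3 t ht t' ht' hne
      exact hu (congrFun htt u)
  have hF : Finite (L ⧸ perSub L f) := by
    by_contra hinf
    rw [not_finite_iff_infinite] at hinf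
    obtain ⟨T, hT⟩ := Infinite.exists_subset_card_eq (L ⧸ perSub L f) (d ^ (n + 1) + 1)
    have := hfin T
    omega
  have hFt : Fintype (L ⧸ perSub L f) := Fintype.ofFinite _
  constructor
  · exact AddSubgroup.index_ne_zero_of_finite
  · rw [AddSubgroup.index, Nat.card_eq_fintype_card, ← Finset.card_univ]
    exact hfin _

end Pool.Agent.Q139.EG
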