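import Pool.Agent.Q139.EG.Nev
import Pool.Agent.Q139.EG.Per
import Pool.Agent.Q139.EB.Uni

/-!
Projective varieties: the curves given by iterated linear differential equations with arbitrary
coefficients, with small coefficients, and with periodic coefficients.
-/

set_option autoImplicit false

namespace Pool.Agent.Q139.EG

open Filter Topology Set Asymptotics MvPolynomial
open scoped LinearAlgebra.Projectivization
open Pool.Agent.TH143.EL Pool.Agent.Y377.ST Pool.Agent.Q1.SL Pool.Agent.H533R3.SL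
open Pool.Agent.Q139.EB (quo quo_rep quo_mero quo_ne quo_self OnV rep_eval eval_global eval_of_punct
  rat_per)

variable {n : ℕ}

/-- The characteristic function `T(r, f)` of a map `f` from the plane to the projective space: the
sum of the Nevanlinna characteristics of the ratios of its coordinates (this is, up to bounded
factors and terms, the usual one). -/
noncomputable def TP (f : ℂ → ℙ ℂ (Fin (n + 1) → ℂ)) (r : ℝ) : ℝ :=
  ∑ v, ∑ u, TT (quo f v u) r

/-- The functions which are analytic on `Ω`, meromorphic on the plane and, with all their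
derivatives, small with respect to `T`. -/
def SmallOn (T : ℝ → ℝ) (Ω : Set ℂ) : Set (ℂ → ℂ) :=
  {a | AnalyticOnNhd ℂ a Ω ∧ Small T a}

theorem ring_small {T : ℝ → ℝ} (hT : Tendsto T atTop atTop) (Ω : Set ℂ) :
    CRing Ω (SmallOn T Ω) where
  an g hg := hg.1
  const c := ⟨analyticOnNhd_const, Small.const hT c⟩
  add g hg h hh := ⟨hg.1.add hh.1, hg.2.add hT hh.2⟩
  mul g hg h hh := ⟨hg.1.mul hh.1, hg.2.mul hT hh.2⟩
  der g hg := ⟨deriv g, ⟨hg.1.deriv, hg.2.deriv⟩, fun _ _ => rfl⟩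

/-- On some domain `Ω`, the point `f(z)` has homogeneous coordinates given by `s` iterated linear
differential equations with matrices of size `r` and polynomials of degree at most `e`, with
coefficients which are meromorphic functions on the plane and, with all their derivatives, small
with respect to `f`: `T(r, a^(k)) = o(T(r, f))`. -/
def SmallCurve (s r e : ℕ) (f : ℂ → ℙ ℂ (Fin (n + 1) → ℂ)) : Prop :=
  ∃ (Ω : Set ℂ) (h : ℂ → Fin (n + 1) → ℂ), IsOpen Ω ∧ IsPreconnected Ω ∧ Ω.Nonempty ∧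
    MVec Ω (SmallOn (TP f) Ω) s r e h ∧ ∀ z ∈ Ω, Rep (f z) (h z)

/-- On some domain `Ω`, the point `f(z)` has homogeneous coordinates given by `s` iterated linear
differential equations with matrices of size `r` and polynomials of degree at most `e`, with
coefficients which are meromorphic functions on the plane with the periods `L`. -/
def PerCurve (L : AddSubgroup ℂ) (s r e : ℕ) (f : ℂ → ℙ ℂ (Fin (n + 1) → ℂ)) : Prop :=
  ∃ (Ω : Set ℂ) (h : ℂ → Fin (n + 1) → ℂ), IsOpen Ω ∧ IsPreconnected Ω ∧ Ω.Nonempty ∧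
    MVec Ω (PerOn L Ω) s r e h ∧ ∀ z ∈ Ω, Rep (f z) (h z)

/-! ### The characteristic of nonconstant maps -/

theorem nonconst_quo {f : ℂ → ℙ ℂ (Fin (n + 1) → ℂ)} (hf : HolMap f) (hnc : ∃ z w, f z ≠ f w) :
    ∃ v u, ∀ a, ¬ ∀ᶠ z in codiscrete ℂ, quo f v u z = a := by
  by_contra hcon
  push Not at hcon
  obtain ⟨z1, z2, hne⟩ := hnc
  obtain ⟨v, hv⟩ : ∃ v, (f z1).rep v ≠ 0 := by
    obtain ⟨v, hv⟩ := Function.ne_iff.1 (f z1).rep_nonzero
    exact ⟨v, hv⟩
  choose a ha using hcon v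
  have h1 : ∀ᶠ z in codiscrete ℂ, ∀ u, quo f v u z = a u := eventually_all.2 ha
  have h2 : ∀ c : ℂ, ∀ u, ∀ᶠ z in codiscrete ℂ, quo f v u (z + 0) = quo f v u (z + c) := by
    intro c u
    filter_upwards [codis_shift 0 h1, codis_shift c h1] with z h3 h4
    rw [h3 u, h4 u]
  have h3 := Pool.Agent.Q139.EB.eq_of_quo hf hv (h2 (z2 - z1)) z1
  rw [add_zero, add_sub_cancel] at h3
  exact hne h3

theorem TP_tendsto {f : ℂ → ℙ ℂ (Fin (n + 1) → ℂ)} (hf : HolMap f) (hnc : ∃ z w, f z ≠ f w) :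
    Tendsto (TP f) atTop atTop := by
  obtain ⟨v, u, h⟩ := nonconst_quo hf hnc
  refine tendsto_atTop_mono' _ ?_ (TT_tendsto (quo_mero hf v u) h)
  filter_upwards [eventually_ge_atTop 1] with r hr
  unfold TP
  have h1 : ∀ v, 0 ≤ ∑ u, TT (quo f v u) r := fun v => Finset.sum_nonneg fun u _ => TT_nonneg _ hr
  calc TT (quo f v u) r ≤ ∑ u, TT (quo f v u) r :=
        Finset.single_le_sum (f := fun u => TT (quo f v u) r) (fun u _ => TT_nonneg _ hr)
          (Finset.mem_univ u)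
    _ ≤ ∑ v, ∑ u, TT (quo f v u) r :=
        Finset.single_le_sum (f := fun v => ∑ u, TT (quo f v u) r) (fun v _ => h1 v)
          (Finset.mem_univ v)

/-- the ratios of a curve which is algebraic over a ring of meromorphic functions -/
theorem quo_alg {M : Set (ℂ → ℂ)} {d : ℕ} {f : ℂ → ℙ ℂ (Fin (n + 1) → ℂ)} (hf : HolMap f)
    {Ω : Set ℂ} (hΩ : IsOpen Ω) (hne : Ω.Nonempty) (hM : ∀ a ∈ M, Meromorphic a)
    (hMa : ∀ a ∈ M, AnalyticOnNhd ℂ a Ω) {h : ℂ → Fin (n + 1) → ℂ}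
    (hr : ∀ z ∈ Ω, Rep (f z) (h z)) {v u : Fin (n + 1)}
    (hv : ∃ z, (f z).rep v ≠ 0) (H : AlgM Ω M d (fun z => h z u) fun z => h z v) :
    ∃ A : ℕ → ℂ → ℂ, (∀ k, A k ∈ M) ∧ (∃ k ≤ d, ¬ ∀ᶠ z in codiscrete ℂ, A k z = 0) ∧
      ∀ᶠ z in codiscrete ℂ, ∑ k ∈ Finset.range (d + 1), A k z * quo f v u z ^ k = 0 := by
  obtain ⟨A, hA1, ⟨k0, hk0, z0, hz0, hA2⟩, hA3⟩ := H
  refine ⟨A, hA1, ⟨k0, hk0, fun h0 => hA2 ?_⟩, ?_⟩
  · exact eq_of_codis h0 (hMa _ (hA1 k0) z0 hz0).continuousAt continuousAt_const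
  · have hm : Meromorphic fun z => ∑ k ∈ Finset.range (d + 1), A k z * quo f v u z ^ k := by
      have h1 : (fun z => ∑ k ∈ Finset.range (d + 1), A k z * quo f v u z ^ k) =
          ∑ k ∈ Finset.range (d + 1), fun z => A k z * quo f v u z ^ k := by
        funext z
        rw [Finset.sum_apply]
      rw [h1]
      intro z
      exact MeromorphicAt.sum fun k _ => (hM _ (hA1 k) z).fun_mul ((quo_mero hf v u z).fun_pow k)
    obtain ⟨z1, hz1⟩ := hne
    obtain ⟨z2, hz2⟩ := hv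
    have hne := quo_ne hf hz2
    apply mero_id hm (x := z1)
    apply Filter.Eventually.frequently
    filter_upwards [mem_nhdsWithin_of_mem_nhds (hΩ.mem_nhds hz1), codis_ev hne z1] with z hz hz3
    have h5 : h z v ≠ 0 := by
      intro h0
      have h1 := (rep_iff (hr z hz)).1 (rep_rep (f z))
      obtain ⟨k, hk⟩ := Function.ne_iff.1 (hr z hz).1
      have hk' : h z k ≠ 0 := hk
      have h2 := h1.2 k v
      rw [h0, zero_mul] at h2
      exact hz3 ((mul_eq_zero.1 h2).resolve_left hk')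
    rw [quo_rep (hr z hz)]
    have h2 := hA3 z hz
    have h3 : (∑ k ∈ Finset.range (d + 1), A k z * (h z u / h z v) ^ k) * h z v ^ d =
        ∑ k ∈ Finset.range (d + 1), A k z * h z u ^ k * h z v ^ (d - k) := by
      rw [Finset.sum_mul]
      refine Finset.sum_congr rfl fun k hk => ?_
      have hk' : k ≤ d := by
        have := Finset.mem_range.1 hk
        omega
      have h4 : h z v ^ d = h z v ^ k * h z v ^ (d - k) := by
        rw [← pow_add, Nat.add_sub_cancel' hk']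
      rw [h4, div_pow]
      field_simp
    rw [h2] at h3
    exact (mul_eq_zero.1 h3).resolve_right (pow_ne_zero _ h5)

/-- a nonconstant curve is not algebraic over the small functions -/
theorem not_alg_small {d : ℕ} {f : ℂ → ℙ ℂ (Fin (n + 1) → ℂ)} (hf : HolMap f)
    (hnc : ∃ z w, f z ≠ f w) {Ω : Set ℂ} (hΩ : IsOpen Ω) (hne : Ω.Nonempty)
    {h : ℂ → Fin (n + 1) → ℂ} (hr : ∀ z ∈ Ω, Rep (f z) (h z))
    (H : ∀ u v, AlgM Ω (SmallOn (TP f) Ω) d (fun z => h z u) fun z => h z v) : False := by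
  have hT := TP_tendsto hf hnc
  have h1 : ∀ v u, TT (quo f v u) =o[atTop] TP f := by
    intro v u
    by_cases hv : ∃ z, (f z).rep v ≠ 0
    · obtain ⟨A, hA1, hA2, hA3⟩ := quo_alg hf hΩ hne (fun a ha => ha.2.1) (fun a ha => ha.1) hr hv
        (H u v)
      exact lo_alg hT (quo_mero hf v u) (fun k => (hA1 k).2.1) (fun k => (hA1 k).2.lo) hA2 hA3
    · push Not at hv
      have h2 : quo f v u = fun _ => 0 := by
        funext z
        unfold Pool.Agent.Q139.EB.quo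
        rw [hv z, div_zero]
      rw [h2]
      exact lo_const hT 0
  have h2 : TP f =o[atTop] TP f := by
    have h3 : TP f = fun r => ∑ v, ∑ u, TT (quo f v u) r := rfl
    conv_lhs => rw [h3]
    exact IsLittleO.fun_sum fun v _ => IsLittleO.fun_sum fun u _ => h1 v u
  have h3 : ∃ᶠ r in atTop, TP f r ≠ 0 := by
    apply Filter.Eventually.frequently
    filter_upwards [hT.eventually_gt_atTop 0] with r hr
    exact hr.ne'
  exact (isLittleO_irrefl h3) h2

/-! ### The degeneracy statements -/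

/-- For all `s`, `r`, `e` there are ONE form `G` which does not vanish on the variety `X` of `S`, and
a number `d`, such that for all domains `Ω` of the plane and ALL rings `M` of functions which are
analytic on `Ω`, contain the constants and are closed under differentiation, every curve
`f : Ω → X` given by `s` iterated linear differential equations with matrices of size `r` and
polynomials of degree at most `e` with coefficients in `M` lies in `G = 0` or is algebraic of degree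
at most `d` over `M`. -/
def GenDeg (S : Set (MvPolynomial (Fin (n + 1)) ℂ)) : Prop :=
  ∀ s r e : ℕ, ∃ (G : MvPolynomial (Fin (n + 1)) ℂ) (d : ℕ), (∃ k, G.IsHomogeneous k) ∧
    G ∉ Ideal.span S ∧ ∀ Ω : Set ℂ, IsOpen Ω → IsPreconnected Ω → ∀ M : Set (ℂ → ℂ),
      CRing Ω M → ∀ f : ℂ → Fin (n + 1) → ℂ, MVec Ω M s r e f →
      (∀ z ∈ Ω, ∀ F ∈ S, eval (f z) F = 0) →
      (∀ z ∈ Ω, eval (f z) G = 0) ∨ ∀ u v, AlgM Ω M d (fun z => f z u) fun z => f z v

/-- For all `s`, `r`, `e` there is ONE form `G` which does not vanish on the variety `X` of `S` such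
that every nonconstant entire curve `f : ℂ → X` with `SmallCurve s r e f` lies in `G = 0`. -/
def SmallDeg (S : Set (MvPolynomial (Fin (n + 1)) ℂ)) : Prop :=
  ∀ s r e : ℕ, ∃ G : MvPolynomial (Fin (n + 1)) ℂ, (∃ k, G.IsHomogeneous k) ∧
    G ∉ Ideal.span S ∧ ∀ f : ℂ → ℙ ℂ (Fin (n + 1) → ℂ), HolMap f → OnV S f →
      (∃ z w, f z ≠ f w) → SmallCurve s r e f → ∀ z, eval (f z).rep G = 0

/-- For all `s`, `r`, `e` there are ONE form `G` which does not vanish on the variety `X` of `S`, and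
a number `N`, such that for all subgroups `L` of the plane every entire curve `f : ℂ → X` with
`PerCurve L s r e f` lies in `G = 0` or is invariant under a subgroup of index at most `N` of `L`. -/
def PerDeg (S : Set (MvPolynomial (Fin (n + 1)) ℂ)) : Prop :=
  ∀ s r e : ℕ, ∃ (G : MvPolynomial (Fin (n + 1)) ℂ) (N : ℕ), (∃ k, G.IsHomogeneous k) ∧
    G ∉ Ideal.span S ∧ ∀ (L : AddSubgroup ℂ) (f : ℂ → ℙ ℂ (Fin (n + 1) → ℂ)), HolMap f →
      OnV S f → PerCurve L s r e f → (∀ z, eval (f z).rep G = 0) ∨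
        ∃ Λ : AddSubgroup L, Λ.index ≠ 0 ∧ Λ.index ≤ N ∧
          ∀ l ∈ Λ, ∀ z, f (z + (l : ℂ)) = f z

theorem MVec.anOn {Ω : Set ℂ} {M : Set (ℂ → ℂ)} {N s r e : ℕ} {f : ℂ → Fin N → ℂ}
    (hΩ : IsOpen Ω) (hM : ∀ a ∈ M, AnalyticOnNhd ℂ a Ω) (hf : MVec Ω M s r e f)
    (j : Fin N) : AnalyticOnNhd ℂ (fun z => f z j) Ω := by
  obtain ⟨X, Y, hX, hc⟩ := hf
  obtain ⟨c, hcM, hc⟩ := hc j
  exact (pevM_an (fun m => hM _ (hcM m)) hX.ent).congr hΩ fun z hz => (hc z hz).symm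

section cases

variable {S : Set (MvPolynomial (Fin (n + 1)) ℂ)} {G : MvPolynomial (Fin (n + 1)) ℂ} {s r e d : ℕ}

theorem small_cases (hS : ∀ F ∈ S, ∃ e, F.IsHomogeneous e) (hG : ∃ e, G.IsHomogeneous e)
    (hd : ∀ Ω : Set ℂ, IsOpen Ω → IsPreconnected Ω → ∀ M : Set (ℂ → ℂ),
      CRing Ω M → ∀ f : ℂ → Fin (n + 1) → ℂ, MVec Ω M s r e f →
      (∀ z ∈ Ω, ∀ F ∈ S, eval (f z) F = 0) →
      (∀ z ∈ Ω, eval (f z) G = 0) ∨ ∀ u v, AlgM Ω M d (fun z => f z u) fun z => f z v)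
    {f : ℂ → ℙ ℂ (Fin (n + 1) → ℂ)} (hf : HolMap f) (hfS : OnV S f) (hnc : ∃ z w, f z ≠ f w)
    (hE : SmallCurve s r e f) (z : ℂ) : eval (f z).rep G = 0 := by
  obtain ⟨Ω, h, hΩ, hΩc, hΩne, hB, hr⟩ := hE
  rcases hd Ω hΩ hΩc _ (ring_small (TP_tendsto hf hnc) Ω) h hB (fun z hz F hF =>
    (rep_eval (hr z hz) (hS F hF)).1 (hfS z F hF)) with h1 | h1
  · obtain ⟨z1, hz1⟩ := hΩne
    apply eval_global hf hG (z1 := z1)
    filter_upwards [hΩ.mem_nhds hz1] with z hz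
    exact (rep_eval (hr z hz) hG).2 (h1 z hz)
  · exact absurd h1 fun h1 => not_alg_small hf hnc hΩ hΩne hr h1

theorem per_cases (hS : ∀ F ∈ S, ∃ e, F.IsHomogeneous e) (hG : ∃ e, G.IsHomogeneous e)
    (hd : ∀ Ω : Set ℂ, IsOpen Ω → IsPreconnected Ω → ∀ M : Set (ℂ → ℂ),
      CRing Ω M → ∀ f : ℂ → Fin (n + 1) → ℂ, MVec Ω M s r e f →
      (∀ z ∈ Ω, ∀ F ∈ S, eval (f z) F = 0) →
      (∀ z ∈ Ω, eval (f z) G = 0) ∨ ∀ u v, AlgM Ω M d (fun z => f z u) fun z => f z v)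
    (L : AddSubgroup ℂ) {f : ℂ → ℙ ℂ (Fin (n + 1) → ℂ)} (hf : HolMap f) (hfS : OnV S f)
    (hE : PerCurve L s r e f) : (∀ z, eval (f z).rep G = 0) ∨
      ((perSub L f).index ≠ 0 ∧ (perSub L f).index ≤ d ^ (n + 1)) := by
  obtain ⟨Ω, h, hΩ, hΩc, hΩne, hB, hr⟩ := hE
  rcases hd Ω hΩ hΩc _ (ring_per L Ω) h hB (fun z hz F hF =>
    (rep_eval (hr z hz) (hS F hF)).1 (hfS z F hF)) with h1 | h1
  · left
    obtain ⟨z1, hz1⟩ := hΩne
    apply eval_global hf hG (z1 := z1)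
    filter_upwards [hΩ.mem_nhds hz1] with z hz
    exact (rep_eval (hr z hz) hG).2 (h1 z hz)
  · right
    obtain ⟨z1, hz1⟩ := hΩne
    obtain ⟨v, hv⟩ := Function.ne_iff.1 (f z1).rep_nonzero
    exact perIx_at L hf hΩ hz1 hv (fun j => hB.anOn hΩ (fun a ha => ha.2.1) j) hr fun u => h1 u v

end cases

theorem genDeg_of_ratDeg {S : Set (MvPolynomial (Fin (n + 1)) ℂ)}
    (hS : ∀ F ∈ S, ∃ e, F.IsHomogeneous e) (h : RatDeg (Ideal.span S)) : GenDeg S := by
  intro s r e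
  obtain ⟨d, hd⟩ := gen_special S hS s r e
  obtain ⟨G, hG1, hG2, hG3⟩ := h d
  refine ⟨G, d, hG1, hG2, hd G hG1 ?_⟩
  intro p hp1 hp2 hp3
  apply hG3 p hp1 ?_ hp3
  intro F hF
  have h1 : Ideal.span S ≤ RingHom.ker (aeval p : MvPolynomial (Fin (n + 1)) ℂ →ₐ[ℂ] _) := by
    rw [Ideal.span_le]
    intro F hF
    exact hp2 F hF
  exact h1 hF

theorem smallDeg_of_genDeg {S : Set (MvPolynomial (Fin (n + 1)) ℂ)}
    (hS : ∀ F ∈ S, ∃ e, F.IsHomogeneous e) (h : GenDeg S) : SmallDeg S := by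
  intro s r e
  obtain ⟨G, d, hG1, hG2, hG3⟩ := h s r e
  exact ⟨G, hG1, hG2, fun f hf hfS hnc hE => small_cases hS hG1 hG3 hf hfS hnc hE⟩

theorem perDeg_of_genDeg {S : Set (MvPolynomial (Fin (n + 1)) ℂ)}
    (hS : ∀ F ∈ S, ∃ e, F.IsHomogeneous e) (h : GenDeg S) : PerDeg S := by
  intro s r e
  obtain ⟨G, d, hG1, hG2, hG3⟩ := h s r e
  refine ⟨G, d ^ (n + 1), hG1, hG2, fun L f hf hfS hE => ?_⟩
  rcases per_cases hS hG1 hG3 L hf hfS hE with h1 | ⟨h1, h2⟩
  · exact Or.inl h1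
  · exact Or.inr ⟨perSub L f, h1, h2, fun l hl z => hl z⟩

/-! ### The converse -/

/-- polynomial curves are given by linear differential equations with constant coefficients -/
theorem mvec_poly {d N : ℕ} {Ω : Set ℂ} {M : Set (ℂ → ℂ)} (hM : ∀ c : ℂ, (fun _ => c) ∈ M)
    (p : Fin N → Polynomial ℂ) (hp : ∀ j, (p j).natDegree ≤ d) :
    MVec Ω M 1 2 d fun z j => (p j).eval z := by
  refine ⟨fun _ z => !![1, z; 0, 1], fun _ z => !![1, -z; 0, 1], ⟨fun l i j => ?_,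
    fun l i j => ?_, fun l z _ => ?_, fun l i j => ?_⟩, fun j => ?_⟩
  · fin_cases i <;> fin_cases j
    · exact analyticOnNhd_const
    · exact fun z _ => analyticAt_id
    · exact analyticOnNhd_const
    · exact analyticOnNhd_const
  · fin_cases i <;> fin_cases j
    · exact analyticOnNhd_const
    · exact fun z _ => analyticAt_id.neg
    · exact analyticOnNhd_const
    · exact analyticOnNhd_const
  · ext i j
    fin_cases i <;> fin_cases j <;> simp [Matrix.mul_apply, Fin.sum_univ_two]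
  · refine ⟨fun m _ => if m = 0 then (if i = 0 ∧ j = 1 then 1 else 0) else 0, fun m => hM _,
      fun z _ => ?_⟩
    have h1 := pev_const (if i = 0 ∧ j = 1 then (1 : ℂ) else 0)
      (before l (entries (fun _ z => !![1, z; 0, 1]) (fun _ z => !![1, -z; 0, 1]) z)) (e := d)
    refine Eq.trans ?_ h1.symm
    fin_cases i <;> fin_cases j <;> simp [Fin.sum_univ_two]
  · obtain ⟨c, hc⟩ := pev_one (p j) (hp j) ((0, true, 0, 1) : Ix 1 2)
    refine ⟨fun m _ => c m, fun m => hM _, fun z _ => ?_⟩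
    change _ = pev c _
    rw [hc]
    rfl

/-- a rational curve as an entire curve -/
theorem rat_entire {S : Set (MvPolynomial (Fin (n + 1)) ℂ)}
    (hS : ∀ F ∈ S, ∃ e, F.IsHomogeneous e) {d : ℕ} {p : Fin (n + 1) → Polynomial ℂ}
    (hp1 : ∀ j, (p j).natDegree ≤ d) (hp2 : ∀ F ∈ S, aeval p F = 0) (hp3 : NonC p) :
    ∃ f : ℂ → ℙ ℂ (Fin (n + 1) → ℂ), HolMap f ∧ OnV S f ∧ (∃ z w, f z ≠ f w) ∧
      (∀ z, (fun j => (p j).eval z) ≠ 0 → Rep (f z) fun j => (p j).eval z) ∧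
      (∃ Ω : Set ℂ, IsOpen Ω ∧ IsPreconnected Ω ∧ Ω.Nonempty ∧
        ∀ z ∈ Ω, Rep (f z) fun j => (p j).eval z) ∧
      ∀ G : MvPolynomial (Fin (n + 1)) ℂ, (∃ k, G.IsHomogeneous k) →
        (∀ z, eval (f z).rep G = 0) → aeval p G = 0 := by
  classical
  have hh : ∀ j, Meromorphic fun z : ℂ => (p j).eval z := fun j z =>
    (p j).differentiable.analyticAt z |>.meromorphicAt
  have hne0 : ∃ j, ¬ ∀ᶠ z in codiscrete ℂ, (p j).eval z = 0 := by
    obtain ⟨s, t, i, j, hst⟩ := hp3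
    have h1 : ∃ j, p j ≠ 0 := by
      by_contra hcon
      push Not at hcon
      rw [hcon i, hcon j] at hst
      simp at hst
    obtain ⟨j, hj⟩ := h1
    refine ⟨j, fun h2 => ?_⟩
    have h3 := (h2.and (poly_codis hj)).frequently.exists
    obtain ⟨z, hz1, hz2⟩ := h3
    exact hz2 hz1
  obtain ⟨f, hf, hr⟩ := exists_holMap hh hne0
  have hr' : ∀ z, (fun j => (p j).eval z) ≠ 0 → Rep (f z) fun j => (p j).eval z := by
    intro z hz
    exact hr z (fun j => (p j).differentiable.analyticAt z) hz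
  have hcod := codis_ne_zero hh hne0
  have hev : ∀ (F : MvPolynomial (Fin (n + 1)) ℂ) (w : ℂ),
      (aeval p F).eval w = eval (fun j => (p j).eval w) F := by
    intro F w
    have h2 := MvPolynomial.comp_aeval_apply (f := p)
      (Polynomial.aeval w : Polynomial ℂ →ₐ[ℂ] ℂ) F
    rw [Polynomial.coe_aeval_eq_eval] at h2
    rw [h2, aeval_ev]
  have hfS : OnV S f := by
    intro z F hF
    apply eval_of_punct hf (hS F hF)
    filter_upwards [codis_ev hcod z] with w hw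
    rw [rep_eval (hr' w hw) (hS F hF), ← hev, hp2 F hF, Polynomial.eval_zero]
  let Ω : Set ℂ := {z | (fun j => (p j).eval z) ≠ 0}
  have hΩ : Ω ∈ codiscrete ℂ := hcod
  refine ⟨f, hf, hfS, ?_, hr', ⟨Ω, codis_open hΩ, codis_pre hΩ, codis_ne hΩ,
    fun z hz => hr' z hz⟩, ?_⟩
  · by_contra hcon
    push Not at hcon
    exact rat_per hr' (a := 1) one_ne_zero (fun z => hcon _ _) hp3
  · intro G hG1 h1
    have h3 : ∀ᶠ w in codiscrete ℂ, (aeval p G).eval w = 0 := by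
      filter_upwards [hcod] with w hw
      rw [hev]
      exact (rep_eval (hr' w hw) hG1).1 (h1 w)
    by_contra h4
    obtain ⟨z, hz1, hz2⟩ := (h3.and (poly_codis h4)).frequently.exists
    exact hz2 hz1

theorem ratDeg_of_smallDeg {S : Set (MvPolynomial (Fin (n + 1)) ℂ)}
    (hS : ∀ F ∈ S, ∃ e, F.IsHomogeneous e) (h : SmallDeg S) : RatDeg (Ideal.span S) := by
  intro d
  obtain ⟨G, hG1, hG2, hG3⟩ := h 1 2 d
  refine ⟨G, hG1, hG2, fun p hp1 hp2 hp3 => ?_⟩
  obtain ⟨f, hf, hfS, hnc, -, ⟨Ω, hΩ, hΩc, hΩne, hr⟩, hG⟩ := rat_entire hS hp1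
    (fun F hF => hp2 F (Ideal.subset_span hF)) hp3
  exact hG G hG1 (hG3 f hf hfS hnc ⟨Ω, fun z j => (p j).eval z, hΩ, hΩc, hΩne,
    mvec_poly (ring_small (TP_tendsto hf hnc) Ω).const p hp1, hr⟩)

theorem ratDeg_of_perDeg {S : Set (MvPolynomial (Fin (n + 1)) ℂ)}
    (hS : ∀ F ∈ S, ∃ e, F.IsHomogeneous e) (h : PerDeg S) : RatDeg (Ideal.span S) := by
  intro d
  obtain ⟨G, N, hG1, hG2, hG3⟩ := h 1 2 d
  refine ⟨G, hG1, hG2, fun p hp1 hp2 hp3 => ?_⟩
  obtain ⟨f, hf, hfS, hnc, hr', ⟨Ω, hΩ, hΩc, hΩne, hr⟩, hG⟩ := rat_entire hS hp1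
    (fun F hF => hp2 F (Ideal.subset_span hF)) hp3
  rcases hG3 ⊤ f hf hfS ⟨Ω, fun z j => (p j).eval z, hΩ, hΩc, hΩne,
    mvec_poly (ring_per ⊤ Ω).const p hp1, hr⟩ with h1 | ⟨Λ, h1, -, h2⟩
  · exact hG G hG1 h1
  · exfalso
    have h3 : ∃ l ∈ Λ, (l : ℂ) ≠ 0 := by
      refine ⟨Λ.index • ⟨1, AddSubgroup.mem_top _⟩, AddSubgroup.nsmul_index_mem _ _, ?_⟩
      simpa using h1
    obtain ⟨l, hl, hl0⟩ := h3
    exact rat_per hr' hl0 (fun z => h2 l hl z) hp3

/-- **Varieties which are not uniruled.** -/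
theorem gen_tfae (FF : Finset (MvPolynomial (Fin (n + 1)) ℂ))
    (hhom : ∀ F ∈ FF, ∃ e, F.IsHomogeneous e)
    (hprime : (Ideal.span (FF : Set (MvPolynomial (Fin (n + 1)) ℂ))).IsPrime) :
    List.TFAE [¬ Uniruled (Ideal.span (FF : Set (MvPolynomial (Fin (n + 1)) ℂ))),
      RatDeg (Ideal.span (FF : Set (MvPolynomial (Fin (n + 1)) ℂ))),
      GenDeg (FF : Set (MvPolynomial (Fin (n + 1)) ℂ)),
      SmallDeg (FF : Set (MvPolynomial (Fin (n + 1)) ℂ)),
      PerDeg (FF : Set (MvPolynomial (Fin (n + 1)) ℂ))] := by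
  tfae_have 1 ↔ 2 := not_uniruled_iff hprime
  tfae_have 2 → 3 := genDeg_of_ratDeg hhom
  tfae_have 3 → 4 := smallDeg_of_genDeg hhom
  tfae_have 3 → 5 := perDeg_of_genDeg hhom
  tfae_have 4 → 2 := ratDeg_of_smallDeg hhom
  tfae_have 5 → 2 := ratDeg_of_perDeg hhom
  tfae_finish

/-- **Small coefficients, uniformly in the variety.** -/
theorem small_uniform (n D s r e : ℕ) : ∃ d : ℕ,
    ∀ (S : Set (MvPolynomial (Fin (n + 1)) ℂ)) (G : MvPolynomial (Fin (n + 1)) ℂ),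
      (∀ F ∈ S, ∃ e, e ≤ D ∧ F.IsHomogeneous e) → (∃ e, e ≤ D ∧ G.IsHomogeneous e) →
      RatIn S G d → ∀ f : ℂ → ℙ ℂ (Fin (n + 1) → ℂ), HolMap f → OnV S f →
        (∃ z w, f z ≠ f w) → SmallCurve s r e f → ∀ z, eval (f z).rep G = 0 := by
  obtain ⟨d, hd⟩ := gen_uniform n D s r e
  refine ⟨d, fun S G hS hG hL f hf hfS hnc hE => ?_⟩
  have hS' : ∀ F ∈ S, ∃ e, F.IsHomogeneous e := fun F hF => by
    obtain ⟨e, -, he⟩ := hS F hF
    exact ⟨e, he⟩
  have hG' : ∃ e, G.IsHomogeneous e := by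
    obtain ⟨e, -, he⟩ := hG
    exact ⟨e, he⟩
  exact small_cases hS' hG' (hd S G hS hG hL) hf hfS hnc hE

/-- **Small coefficients, closed subsets of any degree.** -/
theorem small_special {n : ℕ} (S : Set (MvPolynomial (Fin (n + 1)) ℂ))
    (hS : ∀ F ∈ S, ∃ e, F.IsHomogeneous e) (s r e : ℕ) : ∃ d : ℕ,
    ∀ G : MvPolynomial (Fin (n + 1)) ℂ, (∃ e, G.IsHomogeneous e) →
      RatIn S G d → ∀ f : ℂ → ℙ ℂ (Fin (n + 1) → ℂ), HolMap f → OnV S f →
        (∃ z w, f z ≠ f w) → SmallCurve s r e f → ∀ z, eval (f z).rep G = 0 := by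
  obtain ⟨d, hd⟩ := gen_special S hS s r e
  exact ⟨d, fun G hG hL f hf hfS hnc hE => small_cases hS hG (hd G hG hL) hf hfS hnc hE⟩

end Pool.Agent.Q139.EG
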