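import Pool.Agent.Q139.EG.Curve
import Pool.Agent.Q1.SL.GmUni
import Pool.Agent.Q1.SL.AffC

/-!
Maps of the punctured disc which are given by iterated linear differential equations with
coefficients meromorphic at the puncture: extension over the puncture.
-/

set_option autoImplicit false

namespace Pool.Agent.Q139.EG

open Filter Topology Set MvPolynomial
open Pool.Agent.Y377.ST Pool.Agent.Q1.SL

variable {n : ℕ}

/-- The punctured unit disc. -/
def PD : Set ℂ := {z | z ≠ 0 ∧ ‖z‖ < 1}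

/-- The ring of the functions which are holomorphic on the punctured unit disc and meromorphic at the
puncture. -/
def MerPD : Set (ℂ → ℂ) := {g | AnalyticOnNhd ℂ g PD ∧ MeromorphicAt g 0}

/-- The map `f` (from the punctured unit disc) is given, on some domain `Ω` in the punctured disc, by
`s` iterated linear differential equations with matrices of size `r` and polynomials of degree at
most `e`, with coefficients which are holomorphic on the punctured disc and meromorphic at the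
puncture. -/
def PicCurve (s r e : ℕ) (f : ℂ → Fin n → ℂ) : Prop :=
  ∃ Ω : Set ℂ, IsOpen Ω ∧ IsPreconnected Ω ∧ Ω.Nonempty ∧ Ω ⊆ PD ∧ MVec Ω MerPD s r e f

/-- The map `f = (f_1, ..., f_n)`, defined near the point `0` and outside it, extends to a
holomorphic map `[g_0 : g_1 : ... : g_n]` from a neighbourhood of `0` to the projective space. -/
def Extends (f : ℂ → Fin n → ℂ) : Prop :=
  ∃ g : Fin (n + 1) → ℂ → ℂ, (∀ j, AnalyticAt ℂ (g j) 0) ∧ (∃ j, g j 0 ≠ 0) ∧
    ∀ᶠ z in 𝓝[≠] (0 : ℂ), g 0 z ≠ 0 ∧ ∀ j : Fin n, f z j = g j.succ z / g 0 z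

/-- For all `s`, `r`, `e` there is ONE polynomial `G` outside `I` such that every holomorphic map `f`
from the punctured unit disc to the affine variety `V` of `I` with `PicCurve s r e f` lies in
`G = 0` or extends holomorphically over the puncture. -/
def PicDeg (I : Ideal (MvPolynomial (Fin n) ℂ)) : Prop :=
  ∀ s r e : ℕ, ∃ G : MvPolynomial (Fin n) ℂ, G ∉ I ∧
    ∀ f : ℂ → Fin n → ℂ, (∀ j, AnalyticOnNhd ℂ (fun z => f z j) PD) →
      (∀ z ∈ PD, ∀ F ∈ I, eval (f z) F = 0) → PicCurve s r e f →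
        (∀ z ∈ PD, eval (f z) G = 0) ∨ Extends f

theorem isOpen_PD : IsOpen PD :=
  (isOpen_ne).inter (isOpen_lt continuous_norm continuous_const)

theorem PD_eq : PD = Complex.exp '' {z | z.re < 0} := by
  ext z
  constructor
  · rintro ⟨h1, h2⟩
    refine ⟨Complex.log z, ?_, Complex.exp_log h1⟩
    rw [mem_setOf_eq, Complex.log_re]
    exact Real.log_neg (norm_pos_iff.2 h1) h2
  · rintro ⟨w, hw, rfl⟩
    refine ⟨Complex.exp_ne_zero w, ?_⟩
    rw [Complex.norm_exp]
    exact Real.exp_zero ▸ Real.exp_lt_exp.2 hw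

theorem isPreconnected_PD : IsPreconnected PD := by
  rw [PD_eq]
  exact (convex_halfSpace_re_lt 0).isPreconnected.image _ Complex.continuous_exp.continuousOn

theorem PD_near : ∀ᶠ z in 𝓝[≠] (0 : ℂ), z ∈ PD := by
  have h1 : ∀ᶠ z in 𝓝[≠] (0 : ℂ), z ∈ Metric.ball (0 : ℂ) 1 :=
    nhdsWithin_le_nhds (Metric.ball_mem_nhds _ one_pos)
  filter_upwards [h1, self_mem_nhdsWithin] with z hz h0
  exact ⟨h0, by simpa using hz⟩

theorem zero_PD {g : ℂ → ℂ} (hg : AnalyticOnNhd ℂ g PD) {z0 : ℂ} (hz0 : z0 ∈ PD)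
    (h : ∀ᶠ z in 𝓝 z0, g z = 0) : ∀ z ∈ PD, g z = 0 := fun _ hz =>
  hg.eqOn_zero_of_preconnected_of_eventuallyEq_zero isPreconnected_PD hz0 h hz

theorem zero_PD' {g : ℂ → ℂ} (hg : AnalyticOnNhd ℂ g PD)
    (h : ∀ᶠ z in 𝓝[≠] (0 : ℂ), g z = 0) : ∀ z ∈ PD, g z = 0 := by
  obtain ⟨U, h1, hU, hU0⟩ := mem_nhds_iff.1 (eventually_nhdsWithin_iff.1 h)
  obtain ⟨z1, hz1, hz1U⟩ : ∃ z1 ∈ PD, z1 ∈ U := by
    have h3 : ∀ᶠ z in 𝓝[≠] (0 : ℂ), z ∈ U := nhdsWithin_le_nhds (hU.mem_nhds hU0)
    obtain ⟨z1, h4⟩ := (PD_near.and h3).exists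
    exact ⟨z1, h4⟩
  refine zero_PD hg hz1 ?_
  filter_upwards [hU.mem_nhds hz1U, isOpen_PD.mem_nhds hz1] with z hz hz2
  exact h1 hz hz2.1

theorem root_id {d : ℕ} (c : ℕ → ℂ) {w : ℂ} (hw : w ≠ 0) (hc : c (d + 1) ≠ 0)
    (h : ∑ k ∈ Finset.range (d + 1 + 1), c k * w ^ k = 0) :
    w = - ∑ k ∈ Finset.range (d + 1), (c k / c (d + 1)) * (w ^ k / w ^ d) := by
  rw [Finset.sum_range_succ] at h
  have h3 : c (d + 1) * w ^ (d + 1) = - ∑ k ∈ Finset.range (d + 1), c k * w ^ k := by
    rw [eq_neg_iff_add_eq_zero, add_comm]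
    exact h
  have h4 : (c (d + 1) * w ^ (d + 1)) / (c (d + 1) * w ^ d) = w := by
    rw [pow_succ]
    field_simp
  calc w = (c (d + 1) * w ^ (d + 1)) / (c (d + 1) * w ^ d) := h4.symm
    _ = - ∑ k ∈ Finset.range (d + 1), (c k * w ^ k) / (c (d + 1) * w ^ d) := by
      rw [h3, neg_div, Finset.sum_div]
    _ = _ := by
      congr 1
      exact Finset.sum_congr rfl fun k _ => mul_div_mul_comm _ _ _ _

/-- functions with an algebraic equation over meromorphic functions are meromorphic -/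
theorem mero_of_alg {d : ℕ} {c : ℕ → ℂ → ℂ} {g : ℂ → ℂ} (hc : ∀ k, MeromorphicAt (c k) 0)
    (hg : ∀ᶠ z in 𝓝[≠] (0 : ℂ), AnalyticAt ℂ g z)
    (hne : ∃ k ≤ d, ¬ ∀ᶠ z in 𝓝[≠] (0 : ℂ), c k z = 0)
    (hrel : ∀ᶠ z in 𝓝[≠] (0 : ℂ), ∑ k ∈ Finset.range (d + 1), c k z * g z ^ k = 0) :
    MeromorphicAt g 0 := by
  induction d with
  | zero =>
    exfalso
    obtain ⟨k, hk, hk2⟩ := hne
    have hk0 : k = 0 := by omega
    subst hk0
    apply hk2
    filter_upwards [hrel] with z hz
    simpa using hz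
  | succ d ih =>
    by_cases htop : ∀ᶠ z in 𝓝[≠] (0 : ℂ), c (d + 1) z = 0
    · apply ih
      · obtain ⟨k, hk, hk2⟩ := hne
        refine ⟨k, ?_, hk2⟩
        rcases Nat.lt_or_ge d k with h | h
        · exfalso
          have : k = d + 1 := by omega
          subst this
          exact hk2 htop
        · exact h
      · filter_upwards [hrel, htop] with z hz h0
        rw [Finset.sum_range_succ, h0, zero_mul, add_zero] at hz
        exact hz
    · have htop' : ∀ᶠ z in 𝓝[≠] (0 : ℂ), c (d + 1) z ≠ 0 :=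
        (hc (d + 1)).eventually_eq_zero_or_eventually_ne_zero.resolve_left htop
      -- the quotients have at most poles
      have hquo : ∀ k, MeromorphicAt (fun z => c k z / c (d + 1) z) 0 := fun k =>
        (hc k).fun_div (hc (d + 1))
      choose N hN using hquo
      obtain ⟨M, hM⟩ : ∃ M : ℕ, ∀ k ∈ Finset.range (d + 1), N k ≤ M :=
        ⟨(Finset.range (d + 1)).sup N, fun k hk => Finset.le_sup hk⟩
      have hbd : ∀ k ∈ Finset.range (d + 1), ∃ B : ℝ, ∀ᶠ z in 𝓝[≠] (0 : ℂ),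
          ‖z ^ M * (c k z / c (d + 1) z)‖ ≤ B := by
        intro k hk
        have h1 : AnalyticAt ℂ (fun z : ℂ => z ^ (M - N k) * ((z - 0) ^ N k • (c k z /
            c (d + 1) z))) 0 := (analyticAt_id.pow _).mul (hN k)
        have h2 : ContinuousAt (fun z : ℂ => z ^ M * (c k z / c (d + 1) z)) 0 := by
          have h3 : (fun z : ℂ => z ^ M * (c k z / c (d + 1) z)) =
              fun z : ℂ => z ^ (M - N k) * ((z - 0) ^ N k • (c k z / c (d + 1) z)) := by
            funext z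
            rw [sub_zero, smul_eq_mul, ← mul_assoc, ← pow_add, Nat.sub_add_cancel (hM k hk)]
          rw [h3]
          exact h1.continuousAt
        refine ⟨‖(0 : ℂ) ^ M * (c k 0 / c (d + 1) 0)‖ + 1, ?_⟩
        have h4 := h2.norm
        have h5 : ∀ᶠ z in 𝓝 (0 : ℂ), ‖z ^ M * (c k z / c (d + 1) z)‖ <
            ‖(0 : ℂ) ^ M * (c k 0 / c (d + 1) 0)‖ + 1 :=
          h4.eventually_lt continuousAt_const (by linarith)
        exact nhdsWithin_le_nhds (h5.mono fun z hz => hz.le)
      choose! B hB using hbd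
      have hB' : ∀ᶠ z in 𝓝[≠] (0 : ℂ), ∀ k ∈ Finset.range (d + 1),
          ‖z ^ M * (c k z / c (d + 1) z)‖ ≤ B k := by
        rw [Filter.eventually_all_finset]
        exact hB
      set T : ℝ := ∑ k ∈ Finset.range (d + 1), max (B k) 0 with hT
      have hT0 : 0 ≤ T := Finset.sum_nonneg fun k _ => le_max_right _ _
      -- the Cauchy bound
      have hgb : ∀ᶠ z in 𝓝[≠] (0 : ℂ), ‖z ^ M * g z‖ ≤ T + 1 := by
        have h1 : ∀ᶠ z in 𝓝[≠] (0 : ℂ), z ∈ Metric.ball (0 : ℂ) 1 :=
          nhdsWithin_le_nhds (Metric.ball_mem_nhds _ one_pos)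
        filter_upwards [hrel, htop', hB', h1, self_mem_nhdsWithin] with z hz hc0 hBz hz1 hz0
        have hz1' : ‖z‖ ≤ 1 := by
          have : ‖z‖ < 1 := by simpa using hz1
          exact this.le
        have hzM : ‖z ^ M‖ ≤ 1 := by
          rw [norm_pow]
          exact pow_le_one₀ (norm_nonneg _) hz1'
        rcases le_or_gt ‖g z‖ 1 with hg1 | hg1
        · rw [norm_mul]
          nlinarith [norm_nonneg (z ^ M), norm_nonneg (g z)]
        · have h2 : g z = - ∑ k ∈ Finset.range (d + 1), (c k z / c (d + 1) z) *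
              (g z ^ k / g z ^ d) :=
            root_id (fun k => c k z) (norm_pos_iff.1 (by linarith)) hc0 hz
          have h3 : z ^ M * g z = - ∑ k ∈ Finset.range (d + 1),
              (z ^ M * (c k z / c (d + 1) z)) * (g z ^ k / g z ^ d) := by
            conv_lhs => rw [h2]
            rw [mul_neg, Finset.mul_sum]
            congr 1
            refine Finset.sum_congr rfl fun k _ => ?_
            ring
          rw [h3, norm_neg]
          refine (norm_sum_le _ _).trans ?_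
          have h4 : ∑ k ∈ Finset.range (d + 1),
              ‖(z ^ M * (c k z / c (d + 1) z)) * (g z ^ k / g z ^ d)‖ ≤ T := by
            refine Finset.sum_le_sum fun k hk => ?_
            rw [norm_mul]
            have h5 : ‖g z ^ k / g z ^ d‖ ≤ 1 := by
              rw [norm_div, norm_pow, norm_pow]
              rw [div_le_one (by positivity)]
              exact pow_le_pow_right₀ hg1.le (by have := Finset.mem_range.1 hk; omega)
            calc ‖z ^ M * (c k z / c (d + 1) z)‖ * ‖g z ^ k / g z ^ d‖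
                ≤ max (B k) 0 * 1 := mul_le_mul ((hBz k hk).trans (le_max_left _ _)) h5
                  (norm_nonneg _) (le_max_right _ _)
              _ = max (B k) 0 := mul_one _
          linarith
      -- the function `z ^ (M + 1) g` extends
      refine ⟨M + 1, ?_⟩
      apply Complex.analyticAt_of_differentiable_on_punctured_nhds_of_continuousAt
      · filter_upwards [hg] with z hz
        exact (((differentiableAt_id.sub_const _).pow _).smul hz.differentiableAt)
      · rw [continuousAt_iff_punctured_nhds]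
        have h0 : ((0 : ℂ) - 0) ^ (M + 1) • g 0 = 0 := by simp
        rw [h0, tendsto_zero_iff_norm_tendsto_zero]
        have h1 : Tendsto (fun z : ℂ => ‖z‖ * (T + 1)) (𝓝[≠] 0) (𝓝 0) := by
          have h2 : Tendsto (fun z : ℂ => ‖z‖ * (T + 1)) (𝓝 0) (𝓝 (‖(0 : ℂ)‖ * (T + 1))) :=
            (continuous_norm.mul continuous_const).tendsto 0
          rw [norm_zero, zero_mul] at h2
          exact h2.mono_left nhdsWithin_le_nhds
        refine squeeze_zero' (Eventually.of_forall fun z => norm_nonneg _) ?_ h1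
        filter_upwards [hgb] with z hz
        rw [sub_zero, smul_eq_mul, pow_succ', mul_assoc, norm_mul]
        exact mul_le_mul_of_nonneg_left hz (norm_nonneg _)

/-- meromorphic coordinates: the map to the projective space extends -/
theorem extends_of_mero {f : ℂ → Fin n → ℂ} (hf : ∀ j, MeromorphicAt (fun z => f z j) 0) :
    Extends f := by
  classical
  let P : ℕ → Prop := fun N => ∀ j, ∃ h : ℂ → ℂ, AnalyticAt ℂ h 0 ∧
    ∀ᶠ z in 𝓝[≠] (0 : ℂ), h z = z ^ N * f z j
  have hP : ∃ N, P N := by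
    choose N hN using hf
    refine ⟨Finset.univ.sup N, fun j => ?_⟩
    refine ⟨fun z : ℂ => z ^ (Finset.univ.sup N - N j) * ((z - 0) ^ N j • f z j),
      (analyticAt_id.pow _).mul (hN j), Eventually.of_forall fun z => ?_⟩
    beta_reduce
    rw [sub_zero, smul_eq_mul, ← mul_assoc, ← pow_add,
      Nat.sub_add_cancel (Finset.le_sup (Finset.mem_univ j))]
  have hN := Nat.find_spec hP
  set N := Nat.find hP with hNdef
  choose h hh1 hh2 using hN
  refine ⟨Fin.cons (fun z => z ^ N) h, fun j => ?_, ?_, ?_⟩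
  · refine Fin.cases ?_ (fun j => ?_) j
    · exact analyticAt_id.pow _
    · exact hh1 j
  · by_contra hcon
    push Not at hcon
    have h0 := hcon 0
    rw [Fin.cons_zero] at h0
    have hN0 : N ≠ 0 := by
      intro h1
      rw [h1, pow_zero] at h0
      exact one_ne_zero h0
    have hlt : N - 1 < Nat.find hP := by omega
    apply Nat.find_min hP hlt
    intro j
    have hj := hcon j.succ
    rw [Fin.cons_succ] at hj
    refine ⟨dslope (h j) 0, ?_, ?_⟩
    · obtain ⟨p, hp⟩ := hh1 j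
      exact ⟨_, hp.has_fpower_series_dslope_fslope⟩
    · filter_upwards [hh2 j, self_mem_nhdsWithin] with z hz hz0
      rw [dslope_of_ne _ hz0, slope_def_field, hj, sub_zero, sub_zero, hz]
      have hz0' : z ≠ 0 := hz0
      have h2 : z ^ N = z ^ (N - 1) * z := by rw [← pow_succ, Nat.sub_add_cancel (by omega)]
      rw [h2]
      field_simp
  · have hall : ∀ᶠ z in 𝓝[≠] (0 : ℂ), ∀ j, h j z = z ^ N * f z j := by
      rw [Filter.eventually_all]
      exact hh2
    filter_upwards [hall, self_mem_nhdsWithin] with z hz hz0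
    have hz0' : z ≠ 0 := hz0
    refine ⟨by
      rw [Fin.cons_zero]
      exact pow_ne_zero _ hz0', fun j => ?_⟩
    rw [Fin.cons_zero, Fin.cons_succ, hz j, mul_div_cancel_left₀ _ (pow_ne_zero _ hz0')]

theorem eval_an {m : ℕ} {f : ℂ → Fin m → ℂ} {U : Set ℂ}
    (hf : ∀ j, AnalyticOnNhd ℂ (fun z => f z j) U) (G : MvPolynomial (Fin m) ℂ) :
    AnalyticOnNhd ℂ (fun z => eval (f z) G) U := by
  have h2 : (fun z => eval (f z) G) = fun z => aeval (fun j => f z j) G := by
    funext z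
    rw [aeval_eq_eval]
  rw [h2]
  intro z hz
  exact AnalyticAt.aeval_mvPolynomial (fun j => hf j z hz) G

theorem eval_mero {m : ℕ} {f : ℂ → Fin m → ℂ} {z0 : ℂ}
    (hf : ∀ j, MeromorphicAt (fun z => f z j) z0) (G : MvPolynomial (Fin m) ℂ) :
    MeromorphicAt (fun z => eval (f z) G) z0 := by
  induction G using MvPolynomial.induction_on with
  | C a =>
    simp only [eval_C]
    exact MeromorphicAt.const a z0
  | add p q hp hq =>
    simp only [map_add]
    exact hp.fun_add hq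
  | mul_X p i hp =>
    simp only [map_mul, eval_X]
    exact hp.fun_mul (hf i)

theorem ring_PD {Ω : Set ℂ} (hΩP : Ω ⊆ PD) : CRing Ω MerPD where
  an g hg := hg.1.mono hΩP
  const c := ⟨analyticOnNhd_const, MeromorphicAt.const c 0⟩
  add g hg h hh := ⟨hg.1.add hh.1, hg.2.fun_add hh.2⟩
  mul g hg h hh := ⟨hg.1.mul hh.1, hg.2.fun_mul hh.2⟩
  der g hg := ⟨deriv g, ⟨hg.1.deriv, hg.2.deriv⟩, fun _ _ => rfl⟩

/-- algebraic over the base: meromorphic at the puncture -/
theorem mero_of_algM {Ω : Set ℂ} (hΩ : IsOpen Ω) (hne : Ω.Nonempty) (hΩP : Ω ⊆ PD) {d : ℕ}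
    {g : ℂ → ℂ} (hg : AnalyticOnNhd ℂ g PD) (h : AlgM Ω MerPD d g fun _ => 1) :
    MeromorphicAt g 0 := by
  obtain ⟨A, hA1, ⟨k0, hk0, z0, hz0, hA2⟩, hA3⟩ := h
  refine mero_of_alg (d := d) (c := A) (fun k => (hA1 k).2) ?_
    ⟨k0, hk0, fun hcon => hA2 (zero_PD' (hA1 k0).1 hcon z0 (hΩP hz0))⟩ ?_
  · filter_upwards [PD_near] with z hz
    exact hg z hz
  · obtain ⟨z1, hz1⟩ := hne
    have h1 : ∀ z ∈ PD, ∑ k ∈ Finset.range (d + 1), A k z * g z ^ k = 0 := by
      apply zero_PD (z0 := z1) ?_ (hΩP hz1)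
      · filter_upwards [hΩ.mem_nhds hz1] with z hz
        have h2 := hA3 z hz
        simpa using h2
      · intro z hz
        exact Finset.analyticAt_fun_sum _ fun k _ => ((hA1 k).1 z hz).mul ((hg z hz).pow _)
    filter_upwards [PD_near] with z hz
    exact h1 z hz

theorem picDeg_of_lauDeg {I : Ideal (MvPolynomial (Fin n) ℂ)} (h : LauDeg I) : PicDeg I := by
  intro s r e
  obtain ⟨d, hd⟩ := genA_special (I : Set (MvPolynomial (Fin n) ℂ)) s r e
  obtain ⟨G, hG2, hG3⟩ := h d
  refine ⟨G, hG2, fun f hf hfI hP => ?_⟩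
  obtain ⟨Ω, hΩ, hΩc, hΩne, hΩP, hB⟩ := hP
  rcases hd G hG3 Ω hΩ hΩc MerPD (ring_PD hΩP) f hB (fun z hz F hF => hfI z (hΩP hz) F hF) with
    h1 | h1
  · left
    obtain ⟨z1, hz1⟩ := hΩne
    exact zero_PD (eval_an hf G) (hΩP hz1) (by
      filter_upwards [hΩ.mem_nhds hz1] with z hz
      exact h1 z hz)
  · right
    exact extends_of_mero fun u => mero_of_algM hΩ hΩne hΩP (hf u) (h1 u)

/-! ### The converse -/

/-- points in the punctured disc where `exp (1 / z)` takes a given value -/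
theorem exists_pt {t : ℂ} (ht : t ≠ 0) : ∃ z ∈ PD, Complex.exp z⁻¹ = t := by
  have h1 : ∃ w : ℂ, 1 < ‖w‖ ∧ Complex.exp w = t := by
    rcases le_or_gt ‖Complex.log t‖ 1 with h | h
    · refine ⟨Complex.log t + 2 * Real.pi * Complex.I, ?_, ?_⟩
      · have h2 : ‖(2 * Real.pi * Complex.I : ℂ)‖ = 2 * Real.pi := by
          simp [abs_of_pos Real.pi_pos]
        have h3 : ‖(2 * Real.pi * Complex.I : ℂ)‖ ≤
            ‖Complex.log t + 2 * Real.pi * Complex.I‖ + ‖Complex.log t‖ := by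
          have := norm_sub_le (Complex.log t + 2 * Real.pi * Complex.I) (Complex.log t)
          rwa [add_sub_cancel_left] at this
        have := Real.pi_gt_three
        linarith
      · rw [Complex.exp_add, Complex.exp_two_pi_mul_I, mul_one, Complex.exp_log ht]
    · exact ⟨Complex.log t, h, Complex.exp_log ht⟩
  obtain ⟨w, hw1, hw2⟩ := h1
  have hw0 : w ≠ 0 := by
    rintro rfl
    simp at hw1
    linarith
  refine ⟨w⁻¹, ⟨inv_ne_zero hw0, ?_⟩, by rw [inv_inv, hw2]⟩
  rw [norm_inv]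
  exact inv_lt_one_of_one_lt₀ hw1

/-- and a sequence of such points which tends to the puncture -/
theorem exists_seq {t : ℂ} (ht : t ≠ 0) :
    ∃ z : ℕ → ℂ, Tendsto z atTop (𝓝[≠] 0) ∧ ∀ k, Complex.exp (z k)⁻¹ = t := by
  have h1 : ∀ k : ℕ, ∃ z : ℂ, z ≠ 0 ∧ ‖z‖ ≤ 1 / ((k : ℝ) + 1) ∧ Complex.exp z⁻¹ = t := by
    intro k
    obtain ⟨m, hm⟩ := exists_nat_gt ((k : ℝ) + 1 + ‖Complex.log t‖)
    have h2 : ‖((m : ℂ) * (2 * Real.pi * Complex.I))‖ = m * (2 * Real.pi) := by
      simp [abs_of_pos Real.pi_pos]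
    have h3 : ‖((m : ℂ) * (2 * Real.pi * Complex.I))‖ ≤
        ‖Complex.log t + (m : ℂ) * (2 * Real.pi * Complex.I)‖ + ‖Complex.log t‖ := by
      have := norm_sub_le (Complex.log t + (m : ℂ) * (2 * Real.pi * Complex.I)) (Complex.log t)
      rwa [add_sub_cancel_left] at this
    have hm0 : (0 : ℝ) ≤ m := Nat.cast_nonneg m
    have h4 : (m : ℝ) ≤ m * (2 * Real.pi) := by
      nlinarith [Real.pi_gt_three]
    have h5 : (k : ℝ) + 1 ≤ ‖Complex.log t + (m : ℂ) * (2 * Real.pi * Complex.I)‖ := by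
      linarith
    have hk : (0 : ℝ) < (k : ℝ) + 1 := by positivity
    refine ⟨(Complex.log t + (m : ℂ) * (2 * Real.pi * Complex.I))⁻¹, ?_, ?_, ?_⟩
    · apply inv_ne_zero
      intro h6
      rw [h6, norm_zero] at h5
      linarith
    · rw [norm_inv, ← one_div]
      exact one_div_le_one_div_of_le hk h5
    · rw [inv_inv, Complex.exp_add, Complex.exp_nat_mul_two_pi_mul_I, mul_one,
        Complex.exp_log ht]
  choose z hz1 hz2 hz3 using h1
  refine ⟨z, ?_, hz3⟩
  rw [tendsto_nhdsWithin_iff]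
  refine ⟨?_, Eventually.of_forall fun k => hz1 k⟩
  rw [tendsto_zero_iff_norm_tendsto_zero]
  exact squeeze_zero (fun k => norm_nonneg _) hz2 tendsto_one_div_add_atTop_nhds_zero_nat

theorem mvec_pic {d m N : ℕ} (p : Fin N → Polynomial ℂ) (hp : ∀ j, (p j).natDegree ≤ d)
    (hm : m ≤ d) : MVec PD MerPD 1 1 d fun z => lpt m p (Complex.exp z⁻¹) := by
  have hder : ∀ z ∈ PD, deriv (fun w : ℂ => Complex.exp w⁻¹) z =
      Complex.exp z⁻¹ * (-(z ^ 2)⁻¹) := by
    intro z hz
    exact ((hasDerivAt_inv hz.1).cexp).deriv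
  have hcst : ∀ c : ℂ, (fun _ => c) ∈ MerPD := (ring_PD Subset.rfl).const
  refine ⟨fun _ z => Matrix.of fun _ _ => Complex.exp z⁻¹,
    fun _ z => Matrix.of fun _ _ => Complex.exp (-z⁻¹), ⟨fun l i j z hz => ?_,
    fun l i j z hz => ?_, fun l z _ => ?_, fun l i j => ?_⟩, fun j => ?_⟩
  · exact (analyticAt_inv hz.1).cexp
  · exact ((analyticAt_inv hz.1).neg).cexp
  · ext i j
    rw [Matrix.mul_apply, Fin.sum_univ_one, Matrix.of_apply, Matrix.of_apply, ← Complex.exp_add,
      add_neg_cancel, Complex.exp_zero, Subsingleton.elim i j, Matrix.one_apply_eq]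
  · refine ⟨fun m => if m = 0 then fun z => -(z ^ 2)⁻¹ else fun _ => 0, fun m => ?_,
      fun z hz => ?_⟩
    · beta_reduce
      split_ifs
      · refine ⟨fun z hz => ?_, ?_⟩
        · exact ((analyticAt_id.pow 2).inv (pow_ne_zero 2 hz.1)).neg
        · exact (((MeromorphicAt.id (0 : ℂ)).fun_pow 2).fun_inv).fun_neg
      · exact hcst 0
    · have h0 : ∀ w : Ix 1 1 → ℂ, pev (fun m : Ix 1 1 → Fin (d + 1) =>
          (if m = 0 then fun z : ℂ => -(z ^ 2)⁻¹ else fun _ => 0) z) w = -(z ^ 2)⁻¹ := by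
        intro w
        unfold pev
        rw [Finset.sum_eq_single 0]
        · simp
        · intro m _ hm
          beta_reduce
          rw [if_neg hm, zero_mul]
        · intro h
          exact absurd (Finset.mem_univ _) h
      rw [h0, Fin.sum_univ_one]
      simp only [Matrix.of_apply]
      rw [hder z hz]
      have h1 : Complex.exp z⁻¹ * -(z ^ 2)⁻¹ * Complex.exp (-z⁻¹) =
          (Complex.exp z⁻¹ * Complex.exp (-z⁻¹)) * -(z ^ 2)⁻¹ := by ring
      rw [h1, ← Complex.exp_add, add_neg_cancel, Complex.exp_zero, one_mul]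
  · obtain ⟨c, hc⟩ := pev_two (p j) (hp j) hm (v1 := ((0, true, 0, 0) : Ix 1 1))
      (v2 := ((0, false, 0, 0) : Ix 1 1)) (by simp)
    refine ⟨fun m _ => c m, fun m => hcst _, fun z _ => ?_⟩
    change _ = pev c _
    rw [hc]
    change (p j).eval (Complex.exp z⁻¹) / Complex.exp z⁻¹ ^ m =
      (p j).eval (Complex.exp z⁻¹) * Complex.exp (-z⁻¹) ^ m
    rw [Complex.exp_neg, inv_pow, div_eq_mul_inv]

theorem lauDeg_of_picDeg {I : Ideal (MvPolynomial (Fin n) ℂ)} (h : PicDeg I) : LauDeg I := by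
  intro d
  obtain ⟨G, hG2, hG3⟩ := h 1 1 d
  refine ⟨G, hG2, fun m p hm hp1 hp2 hp3 t ht => ?_⟩
  have hPD : PD.Nonempty := ⟨1 / 2, by norm_num, by norm_num⟩
  have han : ∀ j, AnalyticOnNhd ℂ (fun z => lpt m p (Complex.exp z⁻¹) j) PD := by
    intro j z hz
    have h2 : AnalyticAt ℂ (fun z : ℂ => Complex.exp z⁻¹) z := (analyticAt_inv hz.1).cexp
    have h3 : AnalyticAt ℂ (fun w : ℂ => (p j).eval (Complex.exp w⁻¹)) z := by
      have := AnalyticAt.aeval_polynomial h2 (p j)
      simpa [Polynomial.aeval_def] using this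
    have h4 : AnalyticAt ℂ (fun w : ℂ => Complex.exp w⁻¹ ^ m) z := h2.pow m
    have h5 : Complex.exp z⁻¹ ^ m ≠ 0 := pow_ne_zero _ (Complex.exp_ne_zero _)
    exact h3.div h4 h5
  rcases hG3 (fun z => lpt m p (Complex.exp z⁻¹)) han
    (fun z _ F hF => hp2 _ (Complex.exp_ne_zero _) F hF)
    ⟨PD, isOpen_PD, isPreconnected_PD, hPD, Subset.rfl, mvec_pic p hp1 hm⟩ with h1 | h1
  · obtain ⟨z, hz, hzt⟩ := exists_pt ht
    have h2 := h1 z hz
    rwa [hzt] at h2
  · exfalso
    obtain ⟨g, hg1, ⟨j0, hj0⟩, hg3⟩ := h1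
    obtain ⟨s, t', hs, ht', hst⟩ := hp3
    have key : ∀ u : ℂ, u ≠ 0 → ∀ j : Fin n, g 0 0 * lpt m p u j = g j.succ 0 := by
      intro u hu j
      obtain ⟨z, hz1, hz2⟩ := exists_seq hu
      have h2 : ∀ᶠ k in atTop, g 0 (z k) * lpt m p u j = g j.succ (z k) := by
        filter_upwards [hz1.eventually hg3] with k hk
        have h3 := hk.2 j
        rw [hz2 k] at h3
        rw [h3, mul_div_cancel₀ _ hk.1]
      have hz0 : Tendsto z atTop (𝓝 0) := hz1.mono_right nhdsWithin_le_nhds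
      have h4 : Tendsto (fun k => g 0 (z k) * lpt m p u j) atTop (𝓝 (g 0 0 * lpt m p u j)) :=
        ((hg1 0).continuousAt.tendsto.comp hz0).mul_const _
      have h5 : Tendsto (fun k => g j.succ (z k)) atTop (𝓝 (g j.succ 0)) :=
        (hg1 j.succ).continuousAt.tendsto.comp hz0
      exact tendsto_nhds_unique (h4.congr' h2) h5
    by_cases h0 : g 0 0 = 0
    · apply hj0
      revert hj0
      refine Fin.cases (fun _ => h0) (fun j _ => ?_) j0
      rw [← key s hs j, h0, zero_mul]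
    · apply hst
      funext j
      exact mul_left_cancel₀ h0 ((key s hs j).trans (key t' ht' j).symm)

/-- **The pseudo Picard property for maps of bounded complexity.** -/
theorem pic_tfae {I : Ideal (MvPolynomial (Fin n) ℂ)} (hprime : I.IsPrime) :
    List.TFAE [¬ GmUniruled I, LauDeg I, PicDeg I] := by
  tfae_have 1 → 2 := lauDeg_of_not hprime
  tfae_have 2 → 1 := not_gmUniruled
  tfae_have 2 → 3 := picDeg_of_lauDeg
  tfae_have 3 → 2 := lauDeg_of_picDeg
  tfae_finish

end Pool.Agent.Q139.EG
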