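import Pool.Agent.Q139.EG.Main
import Pool.Agent.Q139.EG.Pic
import Pool.Agent.Q139.EB.AffUni

/-!
Affine varieties: the curves given by iterated linear differential equations with arbitrary
coefficients, with small coefficients, and with periodic coefficients.
-/

set_option autoImplicit false

namespace Pool.Agent.Q139.EG

open Filter Topology Set Asymptotics MvPolynomial
open scoped LinearAlgebra.Projectivization
open Pool.Agent.TH143.EL Pool.Agent.Y377.ST Pool.Agent.Q1.SL
open Pool.Agent.Q139.EB (homC homC_ne projC projC_rep projC_hol projC_inj projC_rep0 eval_globalA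
  const_of_periods)

variable {n : ℕ}

/-- The characteristic function `T(r, f)` of a map `f = (f_1, ..., f_n)` from the plane to the affine
space: the sum of the Nevanlinna characteristics of the `f_j` (this is, up to bounded factors and
terms, the usual one). -/
noncomputable def TA (f : ℂ → Fin n → ℂ) (r : ℝ) : ℝ := ∑ j, TT (fun z => f z j) r

/-- On some domain `Ω`, the coordinates of `f` are given by `s` iterated linear differential
equations with matrices of size `r` and polynomials of degree at most `e`, with coefficients which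
are meromorphic functions on the plane and, with all their derivatives, small with respect to `f`:
`T(r, a^(k)) = o(T(r, f))`. -/
def SmallCurveA (s r e : ℕ) (f : ℂ → Fin n → ℂ) : Prop :=
  ∃ Ω : Set ℂ, IsOpen Ω ∧ IsPreconnected Ω ∧ Ω.Nonempty ∧ MVec Ω (SmallOn (TA f) Ω) s r e f

/-- On some domain `Ω`, the coordinates of `f` are given by `s` iterated linear differential
equations with matrices of size `r` and polynomials of degree at most `e`, with coefficients which
are meromorphic functions on the plane with the periods `L`. -/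
def PerCurveA (L : AddSubgroup ℂ) (s r e : ℕ) (f : ℂ → Fin n → ℂ) : Prop :=
  ∃ Ω : Set ℂ, IsOpen Ω ∧ IsPreconnected Ω ∧ Ω.Nonempty ∧ MVec Ω (PerOn L Ω) s r e f

/-- For all `s`, `r`, `e` there are ONE polynomial `G` outside `I` and a number `d`, such that for
all domains `Ω` of the plane and ALL rings `M` of functions which are analytic on `Ω`, contain the
constants and are closed under differentiation, every curve `f : Ω → V` given by `s` iterated linear
differential equations with matrices of size `r` and polynomials of degree at most `e` with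
coefficients in `M` lies in `G = 0` or is algebraic of degree at most `d` over `M`. -/
def GenDegA (I : Ideal (MvPolynomial (Fin n) ℂ)) : Prop :=
  ∀ s r e : ℕ, ∃ (G : MvPolynomial (Fin n) ℂ) (d : ℕ), G ∉ I ∧
    ∀ Ω : Set ℂ, IsOpen Ω → IsPreconnected Ω → ∀ M : Set (ℂ → ℂ), CRing Ω M →
      ∀ f : ℂ → Fin n → ℂ, MVec Ω M s r e f → (∀ z ∈ Ω, ∀ F ∈ I, eval (f z) F = 0) →
      (∀ z ∈ Ω, eval (f z) G = 0) ∨ ∀ u, AlgM Ω M d (fun z => f z u) fun _ => 1

/-- For all `s`, `r`, `e` there is ONE polynomial `G` outside `I` such that every nonconstant entire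
curve `f : ℂ → V` with `SmallCurveA s r e f` lies in `G = 0`. -/
def SmallDegA (I : Ideal (MvPolynomial (Fin n) ℂ)) : Prop :=
  ∀ s r e : ℕ, ∃ G : MvPolynomial (Fin n) ℂ, G ∉ I ∧
    ∀ f : ℂ → Fin n → ℂ, (∀ j, Differentiable ℂ fun z => f z j) →
      (∀ z, ∀ F ∈ I, eval (f z) F = 0) → SmallCurveA s r e f → (∃ z w, f z ≠ f w) →
        ∀ z, eval (f z) G = 0

/-- For all `s`, `r`, `e` there are ONE polynomial `G` outside `I` and a number `N` such that for all
subgroups `L` of the plane every entire curve `f : ℂ → V` with `PerCurveA L s r e f` lies in `G = 0`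
or is invariant under a subgroup of index at most `N` of `L`, and then constant if `L` contains two
numbers which are linearly independent over the real numbers. -/
def PerDegA (I : Ideal (MvPolynomial (Fin n) ℂ)) : Prop :=
  ∀ s r e : ℕ, ∃ (G : MvPolynomial (Fin n) ℂ) (N : ℕ), G ∉ I ∧
    ∀ (L : AddSubgroup ℂ) (f : ℂ → Fin n → ℂ), (∀ j, Differentiable ℂ fun z => f z j) →
      (∀ z, ∀ F ∈ I, eval (f z) F = 0) → PerCurveA L s r e f → (∀ z, eval (f z) G = 0) ∨
        (∃ Λ : AddSubgroup L, Λ.index ≠ 0 ∧ Λ.index ≤ N ∧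
          ∀ l ∈ Λ, ∀ z, f (z + (l : ℂ)) = f z) ∧
        ((∃ a ∈ L, ∃ b ∈ L, LinearIndependent ℝ ![a, b]) → ∀ z w, f z = f w)

theorem TA_tendsto {f : ℂ → Fin n → ℂ} (hf : ∀ j, Differentiable ℂ fun z => f z j)
    (hnc : ∃ z w, f z ≠ f w) : Tendsto (TA f) atTop atTop := by
  have hm : ∀ j, Meromorphic fun z => f z j := fun j z => ((hf j).analyticAt z).meromorphicAt
  obtain ⟨j, hj⟩ : ∃ j, ∀ a, ¬ ∀ᶠ z in codiscrete ℂ, f z j = a := by
    by_contra hcon
    push Not at hcon
    obtain ⟨z1, z2, hne⟩ := hnc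
    apply hne
    funext j
    obtain ⟨a, ha⟩ := hcon j
    have h1 : ∀ z, f z j = a := fun z =>
      eq_of_codis ha (hf j z).continuousAt continuousAt_const
    rw [h1, h1]
  refine tendsto_atTop_mono' _ ?_ (TT_tendsto (hm j) hj)
  filter_upwards [eventually_ge_atTop 1] with r hr
  exact Finset.single_le_sum (f := fun j => TT (fun z => f z j) r) (fun u _ => TT_nonneg _ hr)
    (Finset.mem_univ j)

/-- the relation holds on the whole plane -/
theorem alg_global {M : Set (ℂ → ℂ)} {d : ℕ} {g : ℂ → ℂ} (hg : Differentiable ℂ g)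
    {Ω : Set ℂ} (hΩ : IsOpen Ω) (hne : Ω.Nonempty) (hM : ∀ a ∈ M, Meromorphic a)
    (hMa : ∀ a ∈ M, AnalyticOnNhd ℂ a Ω) (H : AlgM Ω M d g fun _ => 1) :
    ∃ A : ℕ → ℂ → ℂ, (∀ k, A k ∈ M) ∧ (∃ k ≤ d, ¬ ∀ᶠ z in codiscrete ℂ, A k z = 0) ∧
      ∀ᶠ z in codiscrete ℂ, ∑ k ∈ Finset.range (d + 1), A k z * g z ^ k = 0 := by
  obtain ⟨A, hA1, ⟨k0, hk0, z0, hz0, hA2⟩, hA3⟩ := H
  refine ⟨A, hA1, ⟨k0, hk0, fun h0 => hA2 ?_⟩, ?_⟩
  · exact eq_of_codis h0 (hMa _ (hA1 k0) z0 hz0).continuousAt continuousAt_const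
  · have hm : Meromorphic fun z => ∑ k ∈ Finset.range (d + 1), A k z * g z ^ k := by
      have h1 : (fun z => ∑ k ∈ Finset.range (d + 1), A k z * g z ^ k) =
          ∑ k ∈ Finset.range (d + 1), fun z => A k z * g z ^ k := by
        funext z
        rw [Finset.sum_apply]
      rw [h1]
      intro z
      exact MeromorphicAt.sum fun k _ => (hM _ (hA1 k) z).fun_mul
        ((hg.analyticAt z).meromorphicAt.fun_pow k)
    obtain ⟨z1, hz1⟩ := hne
    apply mero_id hm (x := z1)
    apply Filter.Eventually.frequently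
    filter_upwards [mem_nhdsWithin_of_mem_nhds (hΩ.mem_nhds hz1)] with z hz
    have h2 := hA3 z hz
    simpa using h2

theorem not_alg_smallA {d : ℕ} {f : ℂ → Fin n → ℂ} (hf : ∀ j, Differentiable ℂ fun z => f z j)
    (hnc : ∃ z w, f z ≠ f w) {Ω : Set ℂ} (hΩ : IsOpen Ω) (hne : Ω.Nonempty)
    (H : ∀ u, AlgM Ω (SmallOn (TA f) Ω) d (fun z => f z u) fun _ => 1) : False := by
  have hT := TA_tendsto hf hnc
  have h1 : ∀ u, TT (fun z => f z u) =o[atTop] TA f := by
    intro u
    obtain ⟨A, hA1, hA2, hA3⟩ := alg_global (hf u) hΩ hne (fun a ha => ha.2.1)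
      (fun a ha => ha.1) (H u)
    exact lo_alg hT (fun z => ((hf u).analyticAt z).meromorphicAt) (fun k => (hA1 k).2.1)
      (fun k => (hA1 k).2.lo) hA2 hA3
  have h2 : TA f =o[atTop] TA f := by
    have h3 : TA f = fun r => ∑ u, TT (fun z => f z u) r := rfl
    conv_lhs => rw [h3]
    exact IsLittleO.fun_sum fun u _ => h1 u
  have h3 : ∃ᶠ r in atTop, TA f r ≠ 0 := by
    apply Filter.Eventually.frequently
    filter_upwards [hT.eventually_gt_atTop 0] with r hr
    exact hr.ne'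
  exact (isLittleO_irrefl h3) h2

theorem AlgM.mono {Ω : Set ℂ} {M : Set (ℂ → ℂ)} (h0 : (fun _ => (0 : ℂ)) ∈ M) {d d' : ℕ}
    {u v : ℂ → ℂ} (h : d ≤ d') : AlgM Ω M d u v → AlgM Ω M d' u v := by
  rintro ⟨A, hA1, ⟨k0, hk0, z0, hz0, hA2⟩, hA3⟩
  refine ⟨fun k => if k ≤ d then A k else fun _ => 0, fun k => ?_, ⟨k0, hk0.trans h, z0, hz0, ?_⟩,
    fun z hz => ?_⟩
  · dsimp only
    split_ifs
    · exact hA1 k
    · exact h0
  · dsimp only
    rw [if_pos hk0]
    exact hA2
  · have h1 : ∑ k ∈ Finset.range (d' + 1),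
        (if k ≤ d then A k else fun _ => 0) z * u z ^ k * v z ^ (d' - k) =
        v z ^ (d' - d) * ∑ k ∈ Finset.range (d + 1), A k z * u z ^ k *
          v z ^ (d - k) := by
      rw [Finset.mul_sum]
      have hsub : Finset.range (d + 1) ⊆ Finset.range (d' + 1) := by
        intro k hk
        have := Finset.mem_range.1 hk
        exact Finset.mem_range.2 (by omega)
      rw [← Finset.sum_subset hsub]
      · refine Finset.sum_congr rfl fun k hk => ?_
        have hk' : k ≤ d := by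
          have := Finset.mem_range.1 hk
          omega
        rw [if_pos hk', show d' - k = (d' - d) + (d - k) by omega, pow_add]
        ring
      · intro k _ hk
        have hk' : ¬ k ≤ d := fun h => hk (Finset.mem_range.2 (by omega))
        rw [if_neg hk', zero_mul, zero_mul]
    rw [h1, hA3 z hz, mul_zero]

theorem algM_self {Ω : Set ℂ} {M : Set (ℂ → ℂ)} (hM : ∀ c : ℂ, (fun _ => c) ∈ M)
    (hne : Ω.Nonempty) (g : ℂ → ℂ) : AlgM Ω M 1 g g := by
  obtain ⟨z0, hz0⟩ := hne
  refine ⟨fun k => if k = 0 then fun _ => 1 else fun _ => -1, fun k => ?_, ⟨0, by omega, z0, hz0, ?_⟩,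
    fun z _ => ?_⟩
  · dsimp only
    split_ifs
    · exact hM 1
    · exact hM (-1)
  · simp
  · simp [Finset.sum_range_succ]

theorem small_casesA {S : Set (MvPolynomial (Fin n) ℂ)} {G : MvPolynomial (Fin n) ℂ}
    {s r e d : ℕ}
    (hd : ∀ Ω : Set ℂ, IsOpen Ω → IsPreconnected Ω → ∀ M : Set (ℂ → ℂ), CRing Ω M →
      ∀ f : ℂ → Fin n → ℂ, MVec Ω M s r e f → (∀ z ∈ Ω, ∀ F ∈ S, eval (f z) F = 0) →
      (∀ z ∈ Ω, eval (f z) G = 0) ∨ ∀ u, AlgM Ω M d (fun z => f z u) fun _ => 1)
    {f : ℂ → Fin n → ℂ} (hf : ∀ j, Differentiable ℂ fun z => f z j)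
    (hfS : ∀ z, ∀ F ∈ S, eval (f z) F = 0) (hE : SmallCurveA s r e f)
    (hnc : ∃ z w, f z ≠ f w) (z : ℂ) : eval (f z) G = 0 := by
  obtain ⟨Ω, hΩ, hΩc, hΩne, hB⟩ := hE
  rcases hd Ω hΩ hΩc _ (ring_small (TA_tendsto hf hnc) Ω) f hB (fun z _ F hF => hfS z F hF) with
    h1 | h1
  · exact eval_globalA hf hΩ hΩne h1 z
  · exact (not_alg_smallA hf hnc hΩ hΩne h1).elim

theorem per_casesA {S : Set (MvPolynomial (Fin n) ℂ)} {G : MvPolynomial (Fin n) ℂ}
    {s r e d : ℕ}
    (hd : ∀ Ω : Set ℂ, IsOpen Ω → IsPreconnected Ω → ∀ M : Set (ℂ → ℂ), CRing Ω M →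
      ∀ f : ℂ → Fin n → ℂ, MVec Ω M s r e f → (∀ z ∈ Ω, ∀ F ∈ S, eval (f z) F = 0) →
      (∀ z ∈ Ω, eval (f z) G = 0) ∨ ∀ u, AlgM Ω M d (fun z => f z u) fun _ => 1)
    (L : AddSubgroup ℂ) {f : ℂ → Fin n → ℂ} (hf : ∀ j, Differentiable ℂ fun z => f z j)
    (hfS : ∀ z, ∀ F ∈ S, eval (f z) F = 0) (hE : PerCurveA L s r e f) :
    (∀ z, eval (f z) G = 0) ∨
        (∃ Λ : AddSubgroup L, Λ.index ≠ 0 ∧ Λ.index ≤ (max d 1) ^ (n + 1) ∧
          ∀ l ∈ Λ, ∀ z, f (z + (l : ℂ)) = f z) ∧
        ((∃ a ∈ L, ∃ b ∈ L, LinearIndependent ℝ ![a, b]) → ∀ z w, f z = f w) := by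
  obtain ⟨Ω, hΩ, hΩc, hΩne, hB⟩ := hE
  rcases hd Ω hΩ hΩc _ (ring_per L Ω) f hB (fun z _ F hF => hfS z F hF) with h1 | h1
  · exact Or.inl fun z => eval_globalA hf hΩ hΩne h1 z
  · right
    have hΩne' := hΩne
    obtain ⟨z1, hz1⟩ := hΩne'
    have h2 := perIx_at (d := max d 1) L (projC_hol hf) hΩ hz1 (v := 0) (projC_rep0 f z1)
      (h := fun z => homC (f z)) (fun j => by
        refine Fin.cases ?_ (fun j => ?_) j
        · exact analyticOnNhd_const
        · exact fun z _ => (hf j).analyticAt z) (fun z _ => projC_rep f z) (fun u => by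
        refine Fin.cases ?_ (fun j => ?_) u
        · exact (algM_self (ring_per L Ω).const hΩne fun _ => (1 : ℂ)).mono
            ((ring_per L Ω).const 0) (le_max_right d 1)
        · exact (h1 j).mono ((ring_per L Ω).const 0) (le_max_left d 1))
    have h3 : ∀ l ∈ perSub L (projC f), ∀ z, f (z + (l : ℂ)) = f z := fun l hl z =>
      projC_inj (hl z)
    refine ⟨⟨perSub L (projC f), h2.1, h2.2, h3⟩, ?_⟩
    rintro ⟨a, ha, b, hb, hab⟩ z w
    funext j
    set m := (perSub L (projC f)).index with hm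
    have hm0 : (m : ℝ) ≠ 0 := by exact_mod_cast h2.1
    have h4 : ∀ c ∈ L, ∀ z, f (z + (m : ℂ) * c) j = f z j := by
      intro c hc z
      have h5 := h3 (m • ⟨c, hc⟩) (AddSubgroup.nsmul_index_mem _ _) z
      have h6 : ((m • (⟨c, hc⟩ : L) : L) : ℂ) = (m : ℂ) * c := by
        push_cast
        rw [nsmul_eq_mul]
      rw [h6] at h5
      exact congrFun h5 j
    have hind : LinearIndependent ℝ ![(m : ℂ) * a, (m : ℂ) * b] := by
      rw [LinearIndependent.pair_iff] at hab ⊢
      intro s t hst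
      have h2 := hab (s * m) (t * m) (by
        rw [← hst]
        simp only [Complex.real_smul]
        push_cast
        ring)
      exact ⟨(mul_eq_zero.1 h2.1).resolve_right hm0, (mul_eq_zero.1 h2.2).resolve_right hm0⟩
    exact const_of_periods (hf j) hind (h4 a ha) (h4 b hb) z w

theorem genDegA_of_lauDeg {I : Ideal (MvPolynomial (Fin n) ℂ)} (h : LauDeg I) : GenDegA I := by
  intro s r e
  obtain ⟨d, hd⟩ := genA_special (I : Set (MvPolynomial (Fin n) ℂ)) s r e
  obtain ⟨G, hG2, hG3⟩ := h d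
  exact ⟨G, d, hG2, hd G hG3⟩

theorem smallDegA_of_genDegA {I : Ideal (MvPolynomial (Fin n) ℂ)} (h : GenDegA I) :
    SmallDegA I := by
  intro s r e
  obtain ⟨G, d, hG2, hG3⟩ := h s r e
  exact ⟨G, hG2, fun f hf hfI hE hnc => small_casesA hG3 hf hfI hE hnc⟩

theorem perDegA_of_genDegA {I : Ideal (MvPolynomial (Fin n) ℂ)} (h : GenDegA I) :
    PerDegA I := by
  intro s r e
  obtain ⟨G, d, hG2, hG3⟩ := h s r e
  exact ⟨G, _, hG2, fun L f hf hfI hE => per_casesA hG3 L hf hfI hE⟩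

/-- Laurent polynomials of the exponential function -/
theorem mvec_exp {d m N : ℕ} {Ω : Set ℂ} {M : Set (ℂ → ℂ)} (hM : ∀ c : ℂ, (fun _ => c) ∈ M)
    (p : Fin N → Polynomial ℂ) (hp : ∀ j, (p j).natDegree ≤ d)
    (hm : m ≤ d) : MVec Ω M 1 1 d fun z => lpt m p (Complex.exp z) := by
  refine ⟨fun _ z => Matrix.of fun _ _ => Complex.exp z,
    fun _ z => Matrix.of fun _ _ => Complex.exp (-z), ⟨fun l i j z hz => ?_,
    fun l i j z hz => ?_, fun l z _ => ?_, fun l i j => ?_⟩, fun j => ?_⟩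
  · exact analyticAt_id.cexp
  · exact analyticAt_id.neg.cexp
  · ext i j
    rw [Matrix.mul_apply, Fin.sum_univ_one, Matrix.of_apply, Matrix.of_apply, ← Complex.exp_add,
      add_neg_cancel, Complex.exp_zero, Subsingleton.elim i j, Matrix.one_apply_eq]
  · refine ⟨fun m _ => if m = 0 then 1 else 0, fun m => hM _, fun z hz => ?_⟩
    have h0 : ∀ w : Ix 1 1 → ℂ, pev (fun m : Ix 1 1 → Fin (d + 1) =>
        if m = 0 then (1 : ℂ) else 0) w = 1 := fun w => Pool.Agent.Y377.ST.pev_const 1 w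
    refine Eq.trans ?_ (h0 _).symm
    rw [Fin.sum_univ_one]
    simp only [Matrix.of_apply]
    have h1 : deriv (fun w : ℂ => Complex.exp w) z = Complex.exp z :=
      (Complex.hasDerivAt_exp z).deriv
    rw [h1, ← Complex.exp_add, add_neg_cancel, Complex.exp_zero]
  · obtain ⟨c, hc⟩ := pev_two (p j) (hp j) hm (v1 := ((0, true, 0, 0) : Ix 1 1))
      (v2 := ((0, false, 0, 0) : Ix 1 1)) (by simp)
    refine ⟨fun m _ => c m, fun m => hM _, fun z _ => ?_⟩
    change _ = pev c _
    rw [hc]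
    change (p j).eval (Complex.exp z) / Complex.exp z ^ m =
      (p j).eval (Complex.exp z) * Complex.exp (-z) ^ m
    rw [Complex.exp_neg, inv_pow, div_eq_mul_inv]

theorem lpt_diff {m : ℕ} (p : Fin n → Polynomial ℂ) (j : Fin n) :
    Differentiable ℂ fun z => lpt m p (Complex.exp z) j := by
  intro z
  have h2 : DifferentiableAt ℂ (fun z => (p j).eval (Complex.exp z) / Complex.exp z ^ m) z :=
    DifferentiableAt.div
      ((p j).differentiable.differentiableAt.comp z Complex.differentiable_exp.differentiableAt)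
      (Complex.differentiable_exp.differentiableAt.pow m) (pow_ne_zero _ (Complex.exp_ne_zero z))
  exact h2

theorem lauDeg_of_smallDegA {I : Ideal (MvPolynomial (Fin n) ℂ)} (h : SmallDegA I) :
    LauDeg I := by
  intro d
  obtain ⟨G, hG2, hG3⟩ := h 1 1 d
  refine ⟨G, hG2, fun m p hm hp1 hp2 hp3 t ht => ?_⟩
  obtain ⟨s, t', hs, ht', hst⟩ := hp3
  have hf : ∀ j, Differentiable ℂ fun z => lpt m p (Complex.exp z) j := lpt_diff p
  have hnc : ∃ z w, lpt m p (Complex.exp z) ≠ lpt m p (Complex.exp w) :=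
    ⟨Complex.log s, Complex.log t', by
      rw [Complex.exp_log hs, Complex.exp_log ht']
      exact hst⟩
  have h1 := hG3 (fun z => lpt m p (Complex.exp z)) hf
    (fun z F hF => hp2 _ (Complex.exp_ne_zero z) F hF)
    ⟨univ, isOpen_univ, isPreconnected_univ, univ_nonempty,
      mvec_exp (ring_small (TA_tendsto hf hnc) univ).const p hp1 hm⟩ hnc (Complex.log t)
  rwa [Complex.exp_log ht] at h1

theorem lauDeg_of_perDegA {I : Ideal (MvPolynomial (Fin n) ℂ)} (h : PerDegA I) :
    LauDeg I := by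
  intro d
  obtain ⟨G, N, hG2, hG3⟩ := h 1 1 d
  refine ⟨G, hG2, fun m p hm hp1 hp2 hp3 t ht => ?_⟩
  obtain ⟨s, t', hs, ht', hst⟩ := hp3
  rcases hG3 ⊤ (fun z => lpt m p (Complex.exp z)) (lpt_diff p)
    (fun z F hF => hp2 _ (Complex.exp_ne_zero z) F hF)
    ⟨univ, isOpen_univ, isPreconnected_univ, univ_nonempty,
      mvec_exp (ring_per ⊤ univ).const p hp1 hm⟩ with h1 | ⟨-, h1⟩
  · have h2 := h1 (Complex.log t)
    rwa [Complex.exp_log ht] at h2
  · exfalso
    apply hst
    have h2 : ∃ a ∈ (⊤ : AddSubgroup ℂ), ∃ b ∈ (⊤ : AddSubgroup ℂ),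
        LinearIndependent ℝ ![a, b] := by
      refine ⟨1, AddSubgroup.mem_top _, Complex.I, AddSubgroup.mem_top _, ?_⟩
      rw [LinearIndependent.pair_iff]
      intro s t h
      have h1 := congrArg Complex.re h
      have h2 := congrArg Complex.im h
      simp at h1 h2
      exact ⟨h1, h2⟩
    have h3 := h1 h2 (Complex.log s) (Complex.log t')
    rwa [Complex.exp_log hs, Complex.exp_log ht'] at h3

/-- **Pseudo-hyperbolicity of affine varieties.** -/
theorem genA_tfae {I : Ideal (MvPolynomial (Fin n) ℂ)} (hprime : I.IsPrime) :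
    List.TFAE [¬ GmUniruled I, LauDeg I, GenDegA I, SmallDegA I, PerDegA I] := by
  tfae_have 1 → 2 := lauDeg_of_not hprime
  tfae_have 2 → 1 := not_gmUniruled
  tfae_have 2 → 3 := genDegA_of_lauDeg
  tfae_have 3 → 4 := smallDegA_of_genDegA
  tfae_have 3 → 5 := perDegA_of_genDegA
  tfae_have 4 → 2 := lauDeg_of_smallDegA
  tfae_have 5 → 2 := lauDeg_of_perDegA
  tfae_finish

/-- **Small coefficients, uniformly in the variety.** -/
theorem smallA_uniform (n D s r e : ℕ) : ∃ d : ℕ,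
    ∀ (S : Set (MvPolynomial (Fin n) ℂ)) (G : MvPolynomial (Fin n) ℂ),
      (∀ F ∈ S, F.totalDegree ≤ D) → G.totalDegree ≤ D → LauIn S G d →
      ∀ f : ℂ → Fin n → ℂ, (∀ j, Differentiable ℂ fun z => f z j) →
        (∀ z, ∀ F ∈ S, eval (f z) F = 0) → SmallCurveA s r e f → (∃ z w, f z ≠ f w) →
        ∀ z, eval (f z) G = 0 := by
  obtain ⟨d, hd⟩ := genA_uniform n D s r e
  exact ⟨d, fun S G hS hG hL f hf hfS hE hnc => small_casesA (hd S G hS hG hL) hf hfS hE hnc⟩

/-- **Small coefficients, closed subsets of any degree.** -/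
theorem smallA_special {n : ℕ} (S : Set (MvPolynomial (Fin n) ℂ)) (s r e : ℕ) : ∃ d : ℕ,
    ∀ G : MvPolynomial (Fin n) ℂ, LauIn S G d →
      ∀ f : ℂ → Fin n → ℂ, (∀ j, Differentiable ℂ fun z => f z j) →
        (∀ z, ∀ F ∈ S, eval (f z) F = 0) → SmallCurveA s r e f → (∃ z w, f z ≠ f w) →
        ∀ z, eval (f z) G = 0 := by
  obtain ⟨d, hd⟩ := genA_special S s r e
  exact ⟨d, fun G hL f hf hfS hE hnc => small_casesA (hd G hL) hf hfS hE hnc⟩

end Pool.Agent.Q139.EG
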