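import Pool.Agent.TH143.EL.Mero

/-!
The Nevanlinna characteristic of algebraic functions over small functions.
-/

set_option autoImplicit false

namespace Pool.Agent.Q139.EG

open Filter Topology Set Asymptotics ValueDistribution Pool.Agent.TH143.EL

/-- The Nevanlinna characteristic function `T(r, g)`. -/
noncomputable def TT (g : ℂ → ℂ) (r : ℝ) : ℝ := characteristic g ⊤ r

theorem TT_nonneg (g : ℂ → ℂ) {r : ℝ} (hr : 1 ≤ r) : 0 ≤ TT g r := characteristic_nonneg hr

theorem TT_congr {f g : ℂ → ℂ} (h : ∀ᶠ z in codiscrete ℂ, f z = g z) {r : ℝ} (hr : 1 ≤ r) :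
    TT f r = TT g r :=
  characteristic_congr_codiscrete h (by linarith)

theorem TT_const (c : ℂ) (r : ℝ) : TT (fun _ => c) r = Real.posLog ‖c‖ := by
  unfold TT characteristic
  rw [Pi.add_apply, proximity_const, logCounting_const]
  simp

theorem TT_zero {g : ℂ → ℂ} (h : ∀ᶠ z in codiscrete ℂ, g z = 0) {r : ℝ} (hr : 1 ≤ r) :
    TT g r = 0 := by
  rw [TT_congr h hr, TT_const]
  simp

theorem TT_add {f g : ℂ → ℂ} (hf : Meromorphic f) (hg : Meromorphic g) {r : ℝ} (hr : 1 ≤ r) :
    TT (fun z => f z + g z) r ≤ TT f r + TT g r + Real.log 2 :=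
  characteristic_add_top_le hf hg hr

theorem order_ne_top {f : ℂ → ℂ} (hf : Meromorphic f) (h : ¬ ∀ᶠ z in codiscrete ℂ, f z = 0)
    (z : ℂ) : meromorphicOrderAt f z ≠ ⊤ := by
  intro h1
  apply h
  exact mero_id hf (x := z) (meromorphicOrderAt_eq_top_iff.1 h1).frequently

theorem TT_mul {f g : ℂ → ℂ} (hf : Meromorphic f) (hg : Meromorphic g) {r : ℝ} (hr : 1 ≤ r) :
    TT (fun z => f z * g z) r ≤ TT f r + TT g r := by
  by_cases h1 : ∀ᶠ z in codiscrete ℂ, f z = 0
  · rw [TT_zero (g := fun z => f z * g z) (by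
      filter_upwards [h1] with z hz
      rw [hz, zero_mul]) hr]
    exact add_nonneg (TT_nonneg f hr) (TT_nonneg g hr)
  · by_cases h2 : ∀ᶠ z in codiscrete ℂ, g z = 0
    · rw [TT_zero (g := fun z => f z * g z) (by
        filter_upwards [h2] with z hz
        rw [hz, mul_zero]) hr]
      exact add_nonneg (TT_nonneg f hr) (TT_nonneg g hr)
    · exact characteristic_mul_top_le hr hf (order_ne_top hf h1) hg (order_ne_top hg h2)

theorem TT_inv {f : ℂ → ℂ} (hf : Meromorphic f) : ∃ C : ℝ, ∀ r,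
    TT (fun z => (f z)⁻¹) r ≤ TT f r + C := by
  refine ⟨max |Real.log ‖f 0‖| |Real.log ‖meromorphicTrailingCoeffAt f 0‖|, fun r => ?_⟩
  have h1 := characteristic_sub_characteristic_inv_le hf (R := r)
  have h2 := (abs_le.1 h1).1
  have h3 : TT (fun z => (f z)⁻¹) r = characteristic f⁻¹ ⊤ r := rfl
  have h4 : TT f r = characteristic f ⊤ r := rfl
  rw [h3, h4]
  linarith

theorem TT_pow {f : ℂ → ℂ} (hf : Meromorphic f) (k : ℕ) (r : ℝ) :
    TT (fun z => f z ^ k) r = k * TT f r := by
  have h1 := congrFun (characteristic_pow_top hf (n := k)) r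
  rw [Pi.smul_apply, nsmul_eq_mul] at h1
  exact h1

/-! ### Small functions -/

section small

variable {T : ℝ → ℝ}

theorem lo_of_le (hT : Tendsto T atTop atTop) {F G : ℝ → ℝ} {C : ℝ} (hF : ∀ r, 1 ≤ r → 0 ≤ F r)
    (hG : G =o[atTop] T) (h : ∀ r, 1 ≤ r → F r ≤ G r + C) : F =o[atTop] T := by
  have h1 : (fun _ : ℝ => C) =o[atTop] T := by
    rw [isLittleO_const_left]
    right
    exact tendsto_norm_atTop_atTop.comp hT
  have h2 : (fun r => G r + C) =o[atTop] T := hG.add h1
  refine IsBigO.trans_isLittleO ?_ h2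
  apply IsBigO.of_bound 1
  filter_upwards [eventually_ge_atTop 1] with r hr
  rw [one_mul, Real.norm_of_nonneg (hF r hr)]
  exact (h r hr).trans (le_abs_self _)

theorem lo_add (hT : Tendsto T atTop atTop) {f g : ℂ → ℂ} (hf : Meromorphic f)
    (hg : Meromorphic g) (h1 : TT f =o[atTop] T) (h2 : TT g =o[atTop] T) :
    TT (fun z => f z + g z) =o[atTop] T :=
  lo_of_le hT (fun r hr => TT_nonneg _ hr) (h1.add h2) fun r hr => TT_add hf hg hr

theorem lo_mul (hT : Tendsto T atTop atTop) {f g : ℂ → ℂ} (hf : Meromorphic f)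
    (hg : Meromorphic g) (h1 : TT f =o[atTop] T) (h2 : TT g =o[atTop] T) :
    TT (fun z => f z * g z) =o[atTop] T :=
  lo_of_le hT (fun r hr => TT_nonneg _ hr) (C := 0) (h1.add h2) fun r hr => by
    rw [add_zero]
    exact TT_mul hf hg hr

theorem lo_inv (hT : Tendsto T atTop atTop) {f : ℂ → ℂ} (hf : Meromorphic f)
    (h1 : TT f =o[atTop] T) : TT (fun z => (f z)⁻¹) =o[atTop] T := by
  obtain ⟨C, hC⟩ := TT_inv hf
  exact lo_of_le hT (fun r hr => TT_nonneg _ hr) h1 fun r _ => hC r

theorem lo_congr {f g : ℂ → ℂ} (h : ∀ᶠ z in codiscrete ℂ, f z = g z) (h1 : TT g =o[atTop] T) :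
    TT f =o[atTop] T := by
  refine h1.congr' ?_ EventuallyEq.rfl
  filter_upwards [eventually_ge_atTop 1] with r hr
  exact (TT_congr h hr).symm

theorem lo_const (hT : Tendsto T atTop atTop) (c : ℂ) : TT (fun _ => c) =o[atTop] T := by
  have h1 : TT (fun _ => c) = fun _ => Real.posLog ‖c‖ := funext fun r => TT_const c r
  rw [h1, isLittleO_const_left]
  right
  exact tendsto_norm_atTop_atTop.comp hT

/-- Horner -/
theorem horner (hT : Tendsto T atTop atTop) {g : ℂ → ℂ} (hg : Meromorphic g) (m : ℕ) :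
    ∀ B : ℕ → ℂ → ℂ, (∀ k, Meromorphic (B k)) → (∀ k ≤ m, TT (B k) =o[atTop] T) →
    ∃ S : ℝ → ℝ, S =o[atTop] T ∧ ∀ r, 1 ≤ r →
      TT (fun z => ∑ k ∈ Finset.range (m + 1), B k z * g z ^ k) r ≤ m * TT g r + S r := by
  induction m with
  | zero =>
    intro B hB hB2
    refine ⟨TT (B 0), hB2 0 le_rfl, fun r hr => ?_⟩
    have h1 : (fun z => ∑ k ∈ Finset.range (0 + 1), B k z * g z ^ k) = B 0 := by
      funext z
      simp
    rw [h1]
    simp
  | succ m ih =>
    intro B hB hB2
    obtain ⟨S, hS1, hS2⟩ := ih (fun k => B (k + 1)) (fun k => hB (k + 1))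
      fun k hk => hB2 (k + 1) (by omega)
    have hsum : Meromorphic fun z => ∑ k ∈ Finset.range (m + 1), B (k + 1) z * g z ^ k := by
      have h1 : (fun z => ∑ k ∈ Finset.range (m + 1), B (k + 1) z * g z ^ k) =
          ∑ k ∈ Finset.range (m + 1), fun z => B (k + 1) z * g z ^ k := by
        funext z
        rw [Finset.sum_apply]
      rw [h1]
      intro z
      exact MeromorphicAt.sum fun k _ => (hB (k + 1) z).fun_mul ((hg z).fun_pow k)
    have h1 : (fun z => ∑ k ∈ Finset.range (m + 1 + 1), B k z * g z ^ k) =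
        fun z => B 0 z + g z * ∑ k ∈ Finset.range (m + 1), B (k + 1) z * g z ^ k := by
      funext z
      rw [Finset.sum_range_succ', Finset.mul_sum, pow_zero, mul_one, add_comm]
      congr 1
      refine Finset.sum_congr rfl fun k _ => ?_
      ring
    have hC : (fun _ : ℝ => Real.log 2) =o[atTop] T := by
      rw [isLittleO_const_left]
      right
      exact tendsto_norm_atTop_atTop.comp hT
    refine ⟨fun r => TT (B 0) r + S r + Real.log 2, ((hB2 0 (Nat.zero_le _)).add hS1).add hC,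
      fun r hr => ?_⟩
    rw [h1]
    have h2 := TT_add (hB 0) (hg.mul hsum) hr
    have h3 := TT_mul hg hsum hr
    have h4 := hS2 r hr
    have h5 : TT (fun z => B 0 z + (g * fun z => ∑ k ∈ Finset.range (m + 1),
        B (k + 1) z * g z ^ k) z) r = TT (fun z => B 0 z + g z * ∑ k ∈ Finset.range (m + 1),
        B (k + 1) z * g z ^ k) r := rfl
    rw [h5] at h2
    have h6 : TT (g * fun z => ∑ k ∈ Finset.range (m + 1), B (k + 1) z * g z ^ k) r =
        TT (fun z => g z * ∑ k ∈ Finset.range (m + 1), B (k + 1) z * g z ^ k) r := rfl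
    rw [h6] at h2
    push_cast
    linarith

/-- **A function which is algebraic over small functions is small.** -/
theorem lo_alg (hT : Tendsto T atTop atTop) {g : ℂ → ℂ} (hg : Meromorphic g) {d : ℕ}
    {A : ℕ → ℂ → ℂ} (hA : ∀ k, Meromorphic (A k)) (hA2 : ∀ k, TT (A k) =o[atTop] T)
    (hne : ∃ k ≤ d, ¬ ∀ᶠ z in codiscrete ℂ, A k z = 0)
    (hrel : ∀ᶠ z in codiscrete ℂ, ∑ k ∈ Finset.range (d + 1), A k z * g z ^ k = 0) :
    TT g =o[atTop] T := by
  induction d with
  | zero =>
    exfalso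
    obtain ⟨k, hk, hk2⟩ := hne
    have hk0 : k = 0 := by omega
    subst hk0
    apply hk2
    filter_upwards [hrel] with z hz
    simpa using hz
  | succ d ih =>
    by_cases htop : ∀ᶠ z in codiscrete ℂ, A (d + 1) z = 0
    · apply ih
      · obtain ⟨k, hk, hk2⟩ := hne
        refine ⟨k, ?_, hk2⟩
        rcases Nat.lt_or_ge d k with h | h
        · exfalso
          have : k = d + 1 := by omega
          subst this
          exact hk2 htop
        · exact h
      · filter_upwards [hrel, htop] with z hz h0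
        rw [Finset.sum_range_succ, h0, zero_mul, add_zero] at hz
        exact hz
    · have htop' := mero_ne (hA (d + 1)) htop
      have hinv : Meromorphic fun z => (A (d + 1) z)⁻¹ := (hA (d + 1)).inv
      have hm1 : Meromorphic fun _ : ℂ => (-1 : ℂ) := Meromorphic.const _
      obtain ⟨S, hS1, hS2⟩ := horner hT hg d (fun k z => (-1 * A k z) * (A (d + 1) z)⁻¹)
        (fun k => (hm1.mul (hA k)).mul hinv)
        (fun k _ => lo_mul hT (hm1.mul (hA k)) hinv (lo_mul hT hm1 (hA k) (lo_const hT _) (hA2 k))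
          (lo_inv hT (hA (d + 1)) (hA2 (d + 1))))
      have h1 : ∀ᶠ z in codiscrete ℂ, g z ^ (d + 1) =
          ∑ k ∈ Finset.range (d + 1), ((-1 * A k z) * (A (d + 1) z)⁻¹) * g z ^ k := by
        filter_upwards [hrel, htop'] with z hz h0
        rw [Finset.sum_range_succ] at hz
        have h2 : ∑ k ∈ Finset.range (d + 1), ((-1 * A k z) * (A (d + 1) z)⁻¹) * g z ^ k =
            -(A (d + 1) z)⁻¹ * ∑ k ∈ Finset.range (d + 1), A k z * g z ^ k := by
          rw [Finset.mul_sum]
          refine Finset.sum_congr rfl fun k _ => ?_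
          ring
        rw [h2]
        have h3 : ∑ k ∈ Finset.range (d + 1), A k z * g z ^ k = -(A (d + 1) z * g z ^ (d + 1)) :=
          eq_neg_of_add_eq_zero_left hz
        rw [h3, neg_mul_neg, ← mul_assoc, inv_mul_cancel₀ h0, one_mul]
      refine lo_of_le hT (fun r hr => TT_nonneg _ hr) (C := 0) hS1 fun r hr => ?_
      have h2 := hS2 r hr
      rw [← TT_congr h1 hr, TT_pow hg] at h2
      push_cast at h2
      linarith

/-! ### Unboundedness -/

/-- a meromorphic function with bounded characteristic is constant -/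
theorem const_of_bdd {g : ℂ → ℂ} (hg : Meromorphic g) {C : ℝ} (hC : ∀ r, 1 ≤ r → TT g r ≤ C) :
    ∃ a, ∀ᶠ z in codiscrete ℂ, g z = a := by
  obtain ⟨z0, hz0⟩ := codis_ne (mero_an hg)
  have hz0' : AnalyticAt ℂ g z0 := hz0
  refine ⟨g z0, ?_⟩
  by_contra hcon
  have hsub : Meromorphic fun z => g z - g z0 := hg.sub (Meromorphic.const _)
  have hcon' : ¬ ∀ᶠ z in codiscrete ℂ, g z - g z0 = 0 := by
    intro h
    apply hcon
    filter_upwards [h] with z hz
    exact sub_eq_zero.1 hz
  have hne := mero_ne hsub hcon'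
  obtain ⟨C1, hC1⟩ := TT_inv hsub
  have hbd : ∀ r, 1 ≤ r → TT (fun z => (g z - g z0)⁻¹) r ≤
      C + (Real.posLog ‖g z0‖ + Real.log 2) + C1 := by
    intro r hr
    have h1 := hC1 r
    have h2 := abs_characteristic_sub_characteristic_shift_le (a₀ := g z0) (r := r) hg
    have h3 := (abs_le.1 h2).1
    have h4 : TT (fun z => g z - g z0) r = characteristic (fun z => g z - g z0) ⊤ r := rfl
    have h5 : TT g r = characteristic g ⊤ r := rfl
    have h6 := hC r hr
    rw [h5] at h6
    rw [h4] at h1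
    linarith
  have hlog : logCounting (fun z => (g z - g z0)⁻¹) ⊤ =O[atTop] (1 : ℝ → ℝ) := by
    apply IsBigO.of_bound (C + (Real.posLog ‖g z0‖ + Real.log 2) + C1)
    filter_upwards [eventually_ge_atTop 1] with r hr
    have h1 := hbd r hr
    have h2 : TT (fun z => (g z - g z0)⁻¹) r = proximity (fun z => (g z - g z0)⁻¹) ⊤ r +
      logCounting (fun z => (g z - g z0)⁻¹) ⊤ r := rfl
    have h3 : 0 ≤ proximity (fun z => (g z - g z0)⁻¹) ⊤ r := proximity_nonneg r
    have h4 : 0 ≤ logCounting (fun z => (g z - g z0)⁻¹) ⊤ r := logCounting_nonneg hr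
    rw [Real.norm_of_nonneg h4, Pi.one_apply, norm_one, mul_one]
    linarith
  have han := (logCounting_isBigO_one_iff_analyticOnNhd hsub.inv).1 hlog
  have heq : toMeromorphicNFOn (fun z => (g z - g z0))⁻¹ univ =ᶠ[codiscrete ℂ]
      (fun z => (g z - g z0))⁻¹ := toMeromorphicNFOn_eqOn_codiscrete hsub.inv.meromorphicOn |>.symm
  set w := toMeromorphicNFOn (fun z => (g z - g z0))⁻¹ univ with hw
  have h1 : Tendsto (fun z => (g z - g z0) * w z) (𝓝[≠] z0) (𝓝 (0 * w z0)) := by
    apply Tendsto.mono_left _ nhdsWithin_le_nhds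
    apply Tendsto.mul
    · have h2 := hz0'.continuousAt.sub (continuousAt_const (y := g z0))
      have h3 : Tendsto (fun z => g z - g z0) (𝓝 z0) (𝓝 (g z0 - g z0)) := h2
      rwa [sub_self] at h3
    · exact (han z0 (mem_univ _)).continuousAt
  have h2 : ∀ᶠ z in 𝓝[≠] z0, (g z - g z0) * w z = 1 := by
    filter_upwards [codis_ev hne z0, codis_ev heq z0] with z hz1 hz2
    rw [hz2, Pi.inv_apply, mul_inv_cancel₀ hz1]
  have h3 : Tendsto (fun _ : ℂ => (1 : ℂ)) (𝓝[≠] z0) (𝓝 (0 * w z0)) := h1.congr' h2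
  have h4 := tendsto_nhds_unique h3 tendsto_const_nhds
  rw [zero_mul] at h4
  exact zero_ne_one h4

theorem TT_tendsto {g : ℂ → ℂ} (hg : Meromorphic g)
    (hnc : ∀ a, ¬ ∀ᶠ z in codiscrete ℂ, g z = a) : Tendsto (TT g) atTop atTop := by
  rw [tendsto_atTop]
  intro b
  by_contra hcon
  rw [not_eventually] at hcon
  have h1 : ∀ r, 1 ≤ r → TT g r ≤ b := by
    intro r hr
    obtain ⟨r', h2, h3⟩ := (hcon.and_eventually (eventually_ge_atTop r)).exists
    have h4 : TT g r ≤ TT g r' := characteristic_monotoneOn hg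
      (by rw [mem_Ioi]; linarith) (by rw [mem_Ioi]; linarith) h3
    push Not at h2
    linarith
  obtain ⟨a, ha⟩ := const_of_bdd hg h1
  exact hnc a ha

/-! ### The ring of the small functions -/

/-- `a` is a meromorphic function on the plane which is, with all its derivatives, small with respect
to `T`: `T(r, a^(k)) = o(T(r))` for all `k`. -/
def Small (T : ℝ → ℝ) (a : ℂ → ℂ) : Prop :=
  Meromorphic a ∧ ∀ k : ℕ, TT (iteratedDeriv k a) =o[atTop] T

theorem mero_iter {a : ℂ → ℂ} (ha : Meromorphic a) (k : ℕ) : Meromorphic (iteratedDeriv k a) := by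
  induction k with
  | zero => rwa [iteratedDeriv_zero]
  | succ k ih =>
    rw [iteratedDeriv_succ]
    exact fun z => (ih z).deriv

theorem iter_congr {f g : ℂ → ℂ} (h : ∀ᶠ z in codiscrete ℂ, f z = g z) (k : ℕ) :
    ∀ᶠ z in codiscrete ℂ, iteratedDeriv k f z = iteratedDeriv k g z := by
  have h1 : {z | f z = g z} ∈ codiscrete ℂ := h
  filter_upwards [h1] with z hz
  have h2 : f =ᶠ[𝓝 z] g := codis_nhds h1 hz
  exact h2.iteratedDeriv_eq k

theorem iter_add {f g : ℂ → ℂ} (hf : Meromorphic f) (hg : Meromorphic g) (k : ℕ) :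
    ∀ᶠ z in codiscrete ℂ, iteratedDeriv k (fun z => f z + g z) z =
      iteratedDeriv k f z + iteratedDeriv k g z := by
  filter_upwards [mero_an hf, mero_an hg] with z h1 h2
  exact iteratedDeriv_fun_add h1.contDiffAt h2.contDiffAt

theorem small_mul_aux (hT : Tendsto T atTop atTop) (k : ℕ) : ∀ a b : ℂ → ℂ, Meromorphic a →
    Meromorphic b → (∀ j ≤ k, TT (iteratedDeriv j a) =o[atTop] T) →
    (∀ j ≤ k, TT (iteratedDeriv j b) =o[atTop] T) →
    TT (iteratedDeriv k fun z => a z * b z) =o[atTop] T := by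
  induction k with
  | zero =>
    intro a b ha hb h1 h2
    rw [iteratedDeriv_zero]
    have h3 := h1 0 le_rfl
    have h4 := h2 0 le_rfl
    rw [iteratedDeriv_zero] at h3 h4
    exact lo_mul hT ha hb h3 h4
  | succ k ih =>
    intro a b ha hb h1 h2
    rw [iteratedDeriv_succ']
    have ha' : Meromorphic (deriv a) := fun z => (ha z).deriv
    have hb' : Meromorphic (deriv b) := fun z => (hb z).deriv
    have h3 : ∀ᶠ z in codiscrete ℂ, deriv (fun z => a z * b z) z =
        deriv a z * b z + a z * deriv b z := by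
      filter_upwards [mero_an ha, mero_an hb] with z h3 h4
      exact deriv_fun_mul h3.differentiableAt h4.differentiableAt
    refine lo_congr (iter_congr h3 k) (lo_congr (iter_add (ha'.mul hb) (ha.mul hb') k) ?_)
    refine lo_add hT (mero_iter (ha'.mul hb) k) (mero_iter (ha.mul hb') k)
      (ih _ _ ha' hb (fun j hj => ?_) fun j hj => h2 j (by omega))
      (ih _ _ ha hb' (fun j hj => h1 j (by omega)) fun j hj => ?_)
    · rw [← iteratedDeriv_succ']
      exact h1 (j + 1) (by omega)
    · rw [← iteratedDeriv_succ']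
      exact h2 (j + 1) (by omega)

theorem Small.const (hT : Tendsto T atTop atTop) (c : ℂ) : Small T fun _ => c := by
  refine ⟨Meromorphic.const c, fun k => ?_⟩
  by_cases hk : k = 0
  · have h1 : iteratedDeriv k (fun _ : ℂ => c) = fun _ => c := by
      funext z
      rw [iteratedDeriv_const, if_pos hk]
    rw [h1]
    exact lo_const hT c
  · have h1 : iteratedDeriv k (fun _ : ℂ => c) = fun _ => 0 := by
      funext z
      rw [iteratedDeriv_const, if_neg hk]
    rw [h1]
    exact lo_const hT 0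

theorem Small.add (hT : Tendsto T atTop atTop) {a b : ℂ → ℂ} (ha : Small T a) (hb : Small T b) :
    Small T fun z => a z + b z :=
  ⟨ha.1.add hb.1, fun k => lo_congr (iter_add ha.1 hb.1 k)
    (lo_add hT (mero_iter ha.1 k) (mero_iter hb.1 k) (ha.2 k) (hb.2 k))⟩

theorem Small.mul (hT : Tendsto T atTop atTop) {a b : ℂ → ℂ} (ha : Small T a) (hb : Small T b) :
    Small T fun z => a z * b z :=
  ⟨ha.1.mul hb.1, fun k => small_mul_aux hT k a b ha.1 hb.1 (fun j _ => ha.2 j) fun j _ => hb.2 j⟩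

theorem Small.deriv {a : ℂ → ℂ} (ha : Small T a) : Small T (deriv a) := by
  refine ⟨fun z => (ha.1 z).deriv, fun k => ?_⟩
  rw [← iteratedDeriv_succ']
  exact ha.2 (k + 1)

theorem Small.lo {a : ℂ → ℂ} (ha : Small T a) : TT a =o[atTop] T := by
  have h1 := ha.2 0
  rwa [iteratedDeriv_zero] at h1

end small

end Pool.Agent.Q139.EG
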