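import Pool.Agent.Q139.EB.Alg
import Pool.Agent.Q1.SL.DMain

/-!
Points over differential fields given by iterated linear differential equations of bounded
complexity over an arbitrary differential subfield; towers and ultraproducts.
-/

set_option autoImplicit false

namespace Pool.Agent.Q139.EG

open Filter MvPolynomial Pool.Agent.Y377.IL Pool.Agent.Y377.ST Pool.Agent.Q1.SL
open Pool.Agent.Q139.EB (good_field)

/-- Matrices `X_1, ..., X_s` of size `r` over the differential field `K`, with inverses `Y_l`,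
such that the entries of `X_l' X_l⁻¹` are values of polynomials with coefficients in `E`, of degree
at most `e` in each variable, at the entries of `X_i`, `Y_i`, `i < l`. -/
structure EIterF {K : Type} [Field K] [Algebra ℂ K] {s r : ℕ} (D : Derivation ℂ K K)
    (E : IntermediateField ℂ K) (e : ℕ) (X Y : Fin s → Matrix (Fin r) (Fin r) K) : Prop where
  inv : ∀ l, X l * Y l = 1
  coc : ∀ (l : Fin s) (i j : Fin r), ∃ c : (Ix s r → Fin (e + 1)) → K, (∀ m, c m ∈ E) ∧
    ∑ k, D (X l i k) * Y l k j = pev c (before l (entD X Y))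

/-- vectors given by iterated linear differential equations over the field `E` -/
def EVecF {K : Type} [Field K] [Algebra ℂ K] {n : ℕ} (D : Derivation ℂ K K)
    (E : IntermediateField ℂ K) (s r e : ℕ) (x : Fin n → K) : Prop :=
  ∃ X Y : Fin s → Matrix (Fin r) (Fin r) K, EIterF D E e X Y ∧
    ∀ j, ∃ c : (Ix s r → Fin (e + 1)) → K, (∀ m, c m ∈ E) ∧ x j = pev c (entD X Y)

/-- `u / v` is algebraic of degree at most `d` over the field `E` -/
def AlgE {K : Type} [Field K] [Algebra ℂ K] (E : IntermediateField ℂ K) (d : ℕ) (u v : K) : Prop :=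
  ∃ A : ℕ → K, (∀ k, A k ∈ E) ∧ (∃ k ≤ d, A k ≠ 0) ∧
    ∑ k ∈ Finset.range (d + 1), A k * u ^ k * v ^ (d - k) = 0

section tower

variable {K : Type} [Field K] [Algebra ℂ K] {D : Derivation ℂ K K} {s r e n : ℕ}
  {E : IntermediateField ℂ K}

theorem pevE_mem {ι : Type} [Fintype ι] [DecidableEq ι] (R : Subalgebra ℂ K)
    (c : (ι → Fin (e + 1)) → K) (hc : ∀ m, c m ∈ R) (w : ι → K) (hw : ∀ i, w i ∈ R) :
    pev c w ∈ R := by
  unfold pev
  exact Subalgebra.sum_mem _ fun m _ => R.mul_mem (hc m)
    (Subalgebra.prod_mem _ fun i _ => R.pow_mem (hw i) _)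

/-- the ring generated by the base and the entries of the first matrices -/
noncomputable def ringE (E : IntermediateField ℂ K) (X Y : Fin s → Matrix (Fin r) (Fin r) K)
    (m : ℕ) : Subalgebra ℂ K :=
  E.toSubalgebra ⊔ Algebra.adjoin ℂ {f | ∃ v : Ix s r, (v.1 : ℕ) < m ∧ f = entD X Y v}

theorem base_mem_ringE (X Y : Fin s → Matrix (Fin r) (Fin r) K) (m : ℕ) {x : K} (hx : x ∈ E) :
    x ∈ ringE E X Y m :=
  (le_sup_left : E.toSubalgebra ≤ ringE E X Y m) hx

theorem ent_mem_ringE (X Y : Fin s → Matrix (Fin r) (Fin r) K) (m : ℕ)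
    (v : Ix s r) (hv : (v.1 : ℕ) < m) : entD X Y v ∈ ringE E X Y m :=
  (le_sup_right : Algebra.adjoin ℂ _ ≤ ringE E X Y m) (Algebra.subset_adjoin ⟨v, hv, rfl⟩)

theorem ringE_tow {X Y : Fin s → Matrix (Fin r) (Fin r) K} (hX : EIterF D E e X Y) :
    ∀ m : ℕ, m ≤ s → LTow D E.toSubalgebra (ringE E X Y m) := by
  intro m
  induction m with
  | zero =>
    intro _
    have h1 : ringE E X Y 0 = E.toSubalgebra := by
      unfold ringE
      have h2 : {f | ∃ v : Ix s r, (v.1 : ℕ) < 0 ∧ f = entD X Y v} = (∅ : Set K) := by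
        ext f
        simp
      rw [h2, Algebra.adjoin_empty]
      exact sup_bot_eq _
    rw [h1]
    exact LTow.base
  | succ m ih =>
    intro hm
    have ht := ih (by omega)
    let l : Fin s := ⟨m, hm⟩
    have hF : Fund D (ringE E X Y m) (X l) (Y l)
        (Matrix.of fun i j => ∑ k, D (X l i k) * Y l k j) := by
      refine ⟨hX.inv l, ?_, ?_⟩
      · intro i j
        obtain ⟨c, hcE, hc⟩ := hX.coc l i j
        rw [Matrix.of_apply, hc]
        refine pevE_mem _ c (fun m' => base_mem_ringE X Y m (hcE m')) _ fun v => ?_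
        unfold before
        by_cases hb : v.1 < l
        · rw [if_pos hb]
          exact ent_mem_ringE X Y m v hb
        · rw [if_neg hb]
          exact (ringE E X Y m).zero_mem
      · intro i j
        have h1 : Y l * X l = 1 := mul_eq_one_comm.1 (hX.inv l)
        simp only [Matrix.of_apply, Finset.sum_mul]
        rw [Finset.sum_comm]
        have h2 : ∀ k, ∑ k', D (X l i k) * Y l k k' * X l k' j =
            D (X l i k) * (1 : Matrix (Fin r) (Fin r) K) k j := by
          intro k
          rw [← h1, Matrix.mul_apply, Finset.mul_sum]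
          exact Finset.sum_congr rfl fun k' _ => mul_assoc _ _ _
        simp only [h2, Matrix.one_apply, mul_ite, mul_one, mul_zero, Finset.sum_ite_eq',
          Finset.mem_univ, if_true]
    have h2 : ringE E X Y (m + 1) = mat (ringE E X Y m) (X l) (Y l) := by
      apply le_antisymm
      · unfold ringE
        refine sup_le ?_ ?_
        · exact (le_sup_left : E.toSubalgebra ≤ _).trans
            (le_sup_left : ringE E X Y m ≤ mat (ringE E X Y m) (X l) (Y l))
        · rw [Algebra.adjoin_le_iff]
          rintro f ⟨v, hv, rfl⟩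
          rcases Nat.lt_succ_iff_lt_or_eq.1 hv with h3 | h3
          · exact (le_sup_left : ringE E X Y m ≤ mat (ringE E X Y m) (X l) (Y l))
              (ent_mem_ringE X Y m v h3)
          · have h4 : v.1 = l := Fin.ext h3
            refine (le_sup_right : Algebra.adjoin ℂ _ ≤ mat (ringE E X Y m) (X l) (Y l))
              (Algebra.subset_adjoin ⟨v.2.2.1, v.2.2.2, ?_⟩)
            by_cases hb : v.2.1 = true
            · left
              unfold entD entries
              rw [if_pos hb, h4]
            · right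
              unfold entD entries
              rw [if_neg hb, h4]
      · unfold mat
        refine sup_le ?_ ?_
        · unfold ringE
          refine sup_le_sup le_rfl (Algebra.adjoin_mono ?_)
          rintro f ⟨v, hv, rfl⟩
          exact ⟨v, by omega, rfl⟩
        · rw [Algebra.adjoin_le_iff]
          rintro f ⟨i, j, h3 | h3⟩
          · have h4 := ent_mem_ringE (E := E) X Y (m + 1) (l, true, i, j) (Nat.lt_succ_self m)
            rw [h3]
            exact h4
          · have h4 := ent_mem_ringE (E := E) X Y (m + 1) (l, false, i, j) (Nat.lt_succ_self m)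
            rw [h3]
            exact h4
    rw [h2]
    exact LTow.step ht hF

theorem EVecF.tow {x : Fin n → K} (hx : EVecF D E s r e x) :
    ∃ R : Subalgebra ℂ K, LTow D E.toSubalgebra R ∧ ∀ j, x j ∈ R := by
  obtain ⟨X, Y, hX, hc⟩ := hx
  refine ⟨ringE E X Y s, ringE_tow hX s le_rfl, fun j => ?_⟩
  obtain ⟨c, hcE, hc⟩ := hc j
  rw [hc]
  exact pevE_mem _ c (fun m => base_mem_ringE X Y s (hcE m)) _ fun v =>
    ent_mem_ringE X Y s v v.1.2

end tower

/-! ### Algebraic elements -/

section alg

variable {K : Type} [Field K] [Algebra ℂ K] {E : IntermediateField ℂ K} {u v : K}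

theorem AlgE.mono {d d' : ℕ} (h : d ≤ d') : AlgE E d u v → AlgE E d' u v := by
  rintro ⟨A, hA1, ⟨k0, hk0, hA2⟩, hA3⟩
  refine ⟨fun k => if k ≤ d then A k else 0, fun k => ?_, ⟨k0, hk0.trans h, ?_⟩, ?_⟩
  · dsimp only
    split_ifs
    · exact hA1 k
    · exact E.zero_mem
  · dsimp only
    rw [if_pos hk0]
    exact hA2
  · have h1 : ∑ k ∈ Finset.range (d' + 1),
        (if k ≤ d then A k else 0) * u ^ k * v ^ (d' - k) =
        v ^ (d' - d) * ∑ k ∈ Finset.range (d + 1), A k * u ^ k * v ^ (d - k) := by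
      rw [Finset.mul_sum]
      have hsub : Finset.range (d + 1) ⊆ Finset.range (d' + 1) := by
        intro k hk
        have := Finset.mem_range.1 hk
        exact Finset.mem_range.2 (by omega)
      rw [← Finset.sum_subset hsub]
      · refine Finset.sum_congr rfl fun k hk => ?_
        have hk' : k ≤ d := by
          have := Finset.mem_range.1 hk
          omega
        rw [if_pos hk', show d' - k = (d' - d) + (d - k) by omega, pow_add]
        ring
      · intro k _ hk
        have hk' : ¬ k ≤ d := fun h => hk (Finset.mem_range.2 (by omega))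
        rw [if_neg hk', zero_mul, zero_mul]
    rw [h1, hA3, mul_zero]

theorem exists_algE (hv : v ≠ 0) (h : IsAlgebraic E.toSubalgebra (u / v)) :
    ∃ d, AlgE E d u v := by
  obtain ⟨P, hP0, hP⟩ := h
  refine ⟨P.natDegree, fun k => (P.coeff k : K), fun k => (P.coeff k).2, ⟨P.natDegree, le_rfl, ?_⟩,
    ?_⟩
  · intro h0
    exact (Polynomial.leadingCoeff_ne_zero.2 hP0) (Subtype.ext h0)
  · have h5 : ∑ k ∈ Finset.range (P.natDegree + 1), (P.coeff k : K) * u ^ k *
        v ^ (P.natDegree - k) = v ^ P.natDegree * Polynomial.aeval (u / v) P := by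
      rw [Polynomial.aeval_eq_sum_range, Finset.mul_sum]
      refine Finset.sum_congr rfl fun k hk => ?_
      have hk' : k ≤ P.natDegree := by
        have := Finset.mem_range.1 hk
        omega
      rw [Algebra.smul_def, div_pow]
      have h6 : v ^ P.natDegree = v ^ k * v ^ (P.natDegree - k) := by
        rw [← pow_add, Nat.add_sub_cancel' hk']
      rw [h6]
      have h7 : (algebraMap E.toSubalgebra K) (P.coeff k) = (P.coeff k : K) := rfl
      rw [h7]
      field_simp
    rw [h5, hP, mul_zero]

theorem algE_zero : AlgE E 1 u 0 := by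
  refine ⟨fun k => if k = 0 then 1 else 0, fun k => ?_, ⟨0, Nat.zero_le _, ?_⟩, ?_⟩
  · dsimp only
    split_ifs
    · exact E.one_mem
    · exact E.zero_mem
  · simp
  · simp [Finset.sum_range_succ]

end alg

/-! ### Ultraproducts -/

section ultra

variable {K : ℕ → Type} [∀ i, Field (K i)] [∀ i, Algebra ℂ (K i)] {D : ∀ i, Derivation ℂ (K i) (K i)}
  {K' : Type} [Field K'] [Algebra ℂ K'] {D' : Derivation ℂ K' K'} {π : (∀ i, K i) →+* K'}
  {θ : (ℕ → ℂ) →+* ℂ} {s r e n : ℕ}

/-- the ultraproduct of subfields -/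
def ultraE (E : ∀ i, IntermediateField ℂ (K i)) (hs : Function.Surjective θ)
    (hal : ∀ c : ℕ → ℂ, π (fun i => algebraMap ℂ (K i) (c i)) = algebraMap ℂ K' (θ c))
    (hker : ∀ x, π x = 0 ↔ ∀ᶠ i in (hyperfilter ℕ : Filter ℕ), x i = 0) :
    IntermediateField ℂ K' where
  carrier := {y | ∃ x : ∀ i, K i, (∀ i, x i ∈ E i) ∧ π x = y}
  mul_mem' := by
    rintro _ _ ⟨x, hx, rfl⟩ ⟨y, hy, rfl⟩
    exact ⟨x * y, fun i => (E i).mul_mem (hx i) (hy i), map_mul π x y⟩
  add_mem' := by
    rintro _ _ ⟨x, hx, rfl⟩ ⟨y, hy, rfl⟩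
    exact ⟨x + y, fun i => (E i).add_mem (hx i) (hy i), map_add π x y⟩
  algebraMap_mem' := by
    intro c
    obtain ⟨c', rfl⟩ := hs c
    exact ⟨fun i => algebraMap ℂ (K i) (c' i), fun i => (E i).algebraMap_mem _, hal _⟩
  inv_mem' := by
    rintro _ ⟨x, hx, rfl⟩
    by_cases h0 : π x = 0
    · rw [h0, inv_zero]
      exact ⟨0, fun i => (E i).zero_mem, map_zero π⟩
    · refine ⟨fun i => (x i)⁻¹, fun i => (E i).inv_mem (hx i), ?_⟩
      apply eq_inv_of_mul_eq_one_left
      rw [← map_mul, ← sub_eq_zero, ← map_one π, ← map_sub, hker]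
      have h1 : ∀ᶠ i in (hyperfilter ℕ : Filter ℕ), x i ≠ 0 := by
        rw [hker] at h0
        exact Ultrafilter.eventually_not.2 h0
      filter_upwards [h1] with i hi
      rw [Pi.sub_apply, Pi.mul_apply, Pi.one_apply, sub_eq_zero]
      exact inv_mul_cancel₀ hi

variable {E : ∀ i, IntermediateField ℂ (K i)} (hs : Function.Surjective θ)
  (hal : ∀ c : ℕ → ℂ, π (fun i => algebraMap ℂ (K i) (c i)) = algebraMap ℂ K' (θ c))
  (hker : ∀ x, π x = 0 ↔ ∀ᶠ i in (hyperfilter ℕ : Filter ℕ), x i = 0)

include hs hal hker in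
theorem ultraE_der (hD : ∀ x, D' (π x) = π fun i => D i (x i)) (hE : ∀ i, ∀ x ∈ E i, D i x ∈ E i) :
    ∀ y ∈ ultraE E hs hal hker, D' y ∈ ultraE E hs hal hker := by
  rintro _ ⟨x, hx, rfl⟩
  exact ⟨fun i => D i (x i), fun i => hE i _ (hx i), (hD x).symm⟩

theorem pi_pevE {ι : Type} [Fintype ι] [DecidableEq ι] (c : ∀ i, (ι → Fin (e + 1)) → K i)
    (v : ∀ i, ι → K i) :
    π (fun i => pev (c i) (v i)) = pev (fun m => π fun i => c i m) (fun a => π fun i => v i a) := by
  have h1 : (fun i => pev (c i) (v i)) = pev (fun m i => c i m) (fun a i => v i a) := by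
    funext i
    exact (map_pev (Pi.evalRingHom K i) (fun m i => c i m) (fun a i => v i a)).symm
  rw [h1, map_pev]

include hs hal hker in
theorem EVecF.ultra (hD : ∀ x, D' (π x) = π fun i => D i (x i)) {x : ∀ i, Fin n → K i}
    (hx : ∀ i, EVecF (D i) (E i) s r e (x i)) :
    EVecF D' (ultraE E hs hal hker) s r e fun j => π fun i => x i j := by
  choose X Y hX hc using hx
  refine ⟨fun l => Matrix.of fun a b => π fun i => X i l a b,
    fun l => Matrix.of fun a b => π fun i => Y i l a b, ⟨fun l => ?_, fun l a a' => ?_⟩,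
    fun j => ?_⟩
  · ext a b
    rw [Matrix.mul_apply]
    simp only [Matrix.of_apply, ← map_mul, ← map_sum]
    have h1 : (∑ k, (fun i => X i l a k) * (fun i => Y i l k b)) =
        fun i => (1 : Matrix (Fin r) (Fin r) (K i)) a b := by
      funext i
      rw [Finset.sum_apply]
      exact congrFun (congrFun ((hX i).inv l) a) b
    rw [h1]
    by_cases hab : a = b
    · subst hab
      simp only [Matrix.one_apply_eq]
      exact map_one π
    · simp only [Matrix.one_apply_ne hab]
      exact map_zero π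
  · choose c hcE hc' using fun i => (hX i).coc l a a'
    refine ⟨fun m => π fun i => c i m, fun m => ⟨fun i => c i m, fun i => hcE i m, rfl⟩, ?_⟩
    simp only [Matrix.of_apply, hD, ← map_mul, ← map_sum]
    have h1 : (∑ k, (fun i => D i (X i l a k)) * (fun i => Y i l k a')) =
        fun i => pev (c i) (before l (entD (X i) (Y i))) := by
      funext i
      rw [Finset.sum_apply]
      exact hc' i
    rw [h1, pi_pevE]
    congr 1
    funext v
    unfold before
    by_cases hb : v.1 < l
    · simp only [if_pos hb]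
      exact (ent_pi X Y v).symm
    · simp only [if_neg hb]
      exact map_zero π
  · choose c hcE hc' using fun i => hc i j
    refine ⟨fun m => π fun i => c i m, fun m => ⟨fun i => c i m, fun i => hcE i m, rfl⟩, ?_⟩
    have h1 : (fun i => x i j) = fun i => pev (c i) (entD (X i) (Y i)) := funext hc'
    change π (fun i => x i j) = _
    rw [h1, pi_pevE]
    congr 1
    funext v
    exact (ent_pi X Y v).symm

theorem AlgE.los {d : ℕ} {u v : ∀ i, K i} (h : AlgE (ultraE E hs hal hker) d (π u) (π v)) :
    ∀ᶠ i in (hyperfilter ℕ : Filter ℕ), AlgE (E i) d (u i) (v i) := by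
  obtain ⟨A, hA1, ⟨k0, hk0, hA2⟩, hA3⟩ := h
  choose a haE ha using hA1
  have h2 : ∀ᶠ i in (hyperfilter ℕ : Filter ℕ), a k0 i ≠ 0 := by
    rw [← ha k0, Ne, hker] at hA2
    exact Ultrafilter.eventually_not.2 hA2
  have h3 : ∀ᶠ i in (hyperfilter ℕ : Filter ℕ),
      ∑ k ∈ Finset.range (d + 1), a k i * u i ^ k * v i ^ (d - k) = 0 := by
    have h4 := (hker (fun i => ∑ k ∈ Finset.range (d + 1),
      a k i * u i ^ k * v i ^ (d - k))).1 (by
        have h5 : (fun i => ∑ k ∈ Finset.range (d + 1), a k i * u i ^ k * v i ^ (d - k)) =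
            ∑ k ∈ Finset.range (d + 1), a k * u ^ k * v ^ (d - k) := by
          funext i
          rw [Finset.sum_apply]
          rfl
        rw [h5, map_sum, ← hA3]
        refine Finset.sum_congr rfl fun k _ => ?_
        rw [map_mul, map_mul, map_pow, map_pow, ha])
    exact h4
  filter_upwards [h2, h3] with i h4 h5
  exact ⟨fun k => a k i, fun k => haE k i, ⟨k0, hk0, h4⟩, h5⟩

end ultra

end Pool.Agent.Q139.EG
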